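import Pool.Agent.Helper57K9.Res

/-!
# The two directions of the finiteness criterion for an extension
-/

set_option autoImplicit false

namespace Pool.Agent.Helper57K9

variable {N G H : Type} [Group N] [Group G] [Group H] {n : ℕ} {P : PRes N n}
  {J : Type} [Fintype J] {ι : N →* G} {π : G →* H}

theorem mem_range_phiR (γ : J → H) (hγ : Submonoid.closure (Set.range γ) = ⊤) (b : RM π) :
    b ∈ LinearMap.range (phiR π γ) ↔ ag (show ZG H from b) = 0 := by
  rw [← range_phi γ hγ]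
  constructor
  · rintro ⟨y, rfl⟩
    exact ⟨y, (phiR_apply π γ y).symm⟩
  · rintro ⟨y, hy⟩
    exact ⟨y, (phiR_apply π γ y).trans hy⟩

theorem comap_phiR (γ : J → H) (hγ : Submonoid.closure (Set.range γ) = ⊤) (I : Type)
    [Fintype I] : Submodule.comap (augi π I) (LinearMap.range (phiR π γ)) =
      LinearMap.ker (augv G I) := by
  ext x
  rw [Submodule.mem_comap, mem_range_phiR γ hγ, mem_ker_augv]
  have : ag (show ZG H from augi π I x) = ∑ j, ag (x j) := by
    have h1 : (show ZG H from augi π I x) = ∑ j, mp π (x j) := rfl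
    rw [h1, map_sum]
    exact Finset.sum_congr rfl (fun j _ => ag_mp π _)
  rw [this]

theorem FP_ker_phiR (γ : J → H) (hγ : Submonoid.closure (Set.range γ) = ⊤) {m k : ℕ}
    (hRM : FP (ZG G) m (RM π)) (hk : k ≤ m) (hH : FP (ZG H) (k + 2) (TZ H)) :
    FP (ZG G) k (LinearMap.ker (phiR π γ)) := by
  have h1 : FP (RM π) k (LinearMap.ker (show (J → RM π) →ₗ[RM π] RM π from phi γ)) :=
    FP_ker_phi γ hγ hH
  have h2 := FP.restrict hRM k hk _ h1
  refine FP.of_equiv ?_ h2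
  exact LinearEquiv.ofBijective
      (M := LinearMap.ker (show (J → RM π) →ₗ[RM π] RM π from phi γ))
      (M₂ := LinearMap.ker (phiR π γ))
      { toFun := fun x => ⟨x.1, (phiR_apply π γ x.1).trans x.2⟩
        map_add' := fun _ _ => rfl
        map_smul' := fun _ _ => rfl } ⟨fun x y h => by
          apply Subtype.ext
          exact congrArg (fun z : LinearMap.ker (phiR π γ) => z.1) h,
        fun x => ⟨⟨x.1, (phiR_apply π γ x.1).symm.trans x.2⟩, rfl⟩⟩

theorem partA (hE : IsExt ι π) (m : ℕ) (hm : n = m + 1)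
    (γ : J → H) (hγ : Submonoid.closure (Set.range γ) = ⊤)
    (ρ : J → ∀ i, Matrix (Fin (P.k i)) (Fin (P.k i)) (ZG G))
    (hρ : ∀ j, IsChain P ι π m (γ j) (ρ j))
    (hG : FP (ZG G) (m + 2) (TZ G)) (hH : FP (ZG H) (m + 3) (TZ H)) :
    ∃ W : Submodule (ZG G) (Fin (P.k (m + 1)) → ZG G), W.FG ∧
      LinearMap.ker (P.dI ι m) = W ⊔ Submodule.map (uu P ρ (m + 1))
        (LinearMap.ker ((P.dI ι m).compLeft J)) := by
  rw [← ext_iff P hE m hm γ ρ hρ]
  have hRM := P.FP_RM ι π hE m hm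
  refine TT_of _ _ ?_ (FP_ker_phiR γ hγ hRM le_rfl hH)
  rw [comap_phiR γ hγ]
  refine FP.ker _ (augv_surjective ?_) (FP.free _ _) hG
  obtain ⟨x, hx⟩ := P.ne
  refine ⟨pv ι x, ?_⟩
  rw [← hx]
  exact Finset.sum_congr rfl (fun j _ => ag_mp ι _)

theorem partB (hE : IsExt ι π) (m : ℕ) (hm : n = m + 1)
    (γ : J → H) (hγ : Submonoid.closure (Set.range γ) = ⊤)
    (ρ : J → ∀ i, Matrix (Fin (P.k i)) (Fin (P.k i)) (ZG G))
    (hρ : ∀ j, IsChain P ι π m (γ j) (ρ j)) (hH : FP (ZG H) (m + 2) (TZ H))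
    (hW : ∃ W : Submodule (ZG G) (Fin (P.k (m + 1)) → ZG G), W.FG ∧
      LinearMap.ker (P.dI ι m) = W ⊔ Submodule.map (uu P ρ (m + 1))
        (LinearMap.ker ((P.dI ι m).compLeft J))) :
    FP (ZG G) (m + 2) (TZ G) := by
  rw [← ext_iff P hE m hm γ ρ hρ] at hW
  have hRM := P.FP_RM ι π hE m hm
  have h1 := of_TT _ _ hW (FP_ker_phiR γ hγ hRM (Nat.le_succ m) hH)
  rw [comap_phiR γ hγ] at h1
  refine FP.of_cover (augv G (Fin (P.k 0))) (augv_surjective ?_) h1
  obtain ⟨x, hx⟩ := P.ne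
  refine ⟨pv ι x, ?_⟩
  rw [← hx]
  exact Finset.sum_congr rfl (fun j _ => ag_mp ι _)

end Pool.Agent.Helper57K9
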