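import Mathlib

/-!
# Coset components of vectors over a group ring
-/

set_option autoImplicit false

namespace Pool.Agent.Helper57K9

open MonoidAlgebra

/-- the integral group ring -/
abbrev ZG (G : Type) [Group G] : Type := MonoidAlgebra ℤ G

/-- the map of group rings induced by a homomorphism -/
noncomputable abbrev mp {G H : Type} [Group G] [Group H] (f : G →* H) : ZG G →+* ZG H :=
  MonoidAlgebra.mapDomainRingHom ℤ f

/-- the element of the group ring given by a group element -/
noncomputable abbrev og {G : Type} [Group G] (g : G) : ZG G := MonoidAlgebra.of ℤ G g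

theorem og_def {G : Type} [Group G] (g : G) : og g = MonoidAlgebra.single g 1 := rfl

theorem og_mul {G : Type} [Group G] (g h : G) : og (g * h) = og g * og h := map_mul _ g h

theorem og_one {G : Type} [Group G] : og (1 : G) = 1 := map_one _

theorem og_inv_mul {G : Type} [Group G] (g : G) : og g⁻¹ * og g = 1 := by
  rw [← og_mul, inv_mul_cancel, og_one]

theorem og_mul_inv {G : Type} [Group G] (g : G) : og g * og g⁻¹ = 1 := by
  rw [← og_mul, mul_inv_cancel, og_one]

theorem single_eq {G : Type} [Group G] (g : G) (c : ℤ) :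
    (MonoidAlgebra.single g c : ZG G) = c • og g := by
  rw [og_def, MonoidAlgebra.smul_single, smul_eq_mul, mul_one]

theorem mp_og {G H : Type} [Group G] [Group H] (f : G →* H) (g : G) :
    mp f (og g) = og (f g) := by
  simp

theorem mp_single {G H : Type} [Group G] [Group H] (f : G →* H) (g : G) (c : ℤ) :
    mp f (MonoidAlgebra.single g c) = MonoidAlgebra.single (f g) c := by
  simp

theorem mp_comp {G H K : Type} [Group G] [Group H] [Group K] (f : G →* H) (e : H →* K)
    (x : ZG G) : mp e (mp f x) = mp (e.comp f) x := by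
  exact (RingHom.congr_fun (MonoidAlgebra.mapDomainRingHom_comp (R := ℤ) e f) x).symm

theorem mp_surjective {G H : Type} [Group G] [Group H] (f : G →* H)
    (hf : Function.Surjective f) : Function.Surjective (mp f) := by
  intro x
  induction x using MonoidAlgebra.induction_linear with
  | zero => exact ⟨0, map_zero _⟩
  | add x y hx hy =>
    obtain ⟨a, rfl⟩ := hx
    obtain ⟨b, rfl⟩ := hy
    exact ⟨a + b, map_add _ _ _⟩
  | single m r =>
    obtain ⟨g, rfl⟩ := hf m
    exact ⟨MonoidAlgebra.single g r, mp_single f g r⟩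

section pv

variable {G H K : Type} [Group G] [Group H] [Group K] (f : G →* H) {J I : Type}

/-- the map on vectors -/
noncomputable def pv (f : G →* H) : (J → ZG G) →+ (J → ZG H) :=
  (mp f).toAddMonoidHom.compLeft J

theorem pv_apply (x : J → ZG G) (j : J) : pv f x j = mp f (x j) := rfl

theorem pv_smul (a : ZG G) (x : J → ZG G) : pv f (a • x) = mp f a • pv f x := by
  funext j
  rw [pv_apply, Pi.smul_apply, smul_eq_mul, map_mul, Pi.smul_apply, smul_eq_mul, pv_apply]

theorem pv_vecMul [Fintype J] (x : J → ZG G) (M : Matrix J I (ZG G)) :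
    pv f (Matrix.vecMul x M) = Matrix.vecMul (pv f x) (M.map (mp f)) := by
  funext i
  exact RingHom.map_vecMul (mp f) M x i

theorem pv_comp (e : H →* K) (x : J → ZG G) : pv e (pv f x) = pv (e.comp f) x := by
  funext j
  rw [pv_apply, pv_apply, pv_apply, mp_comp]

end pv

/-- a short exact sequence of groups -/
structure IsExt {N G H : Type} [Group N] [Group G] [Group H] (ι : N →* G) (π : G →* H) :
    Prop where
  inj : Function.Injective ι
  surj : Function.Surjective π
  ex : ∀ g, π g = 1 ↔ ∃ n, ι n = g

namespace IsExt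

variable {N G H : Type} [Group N] [Group G] [Group H] {ι : N →* G} {π : G →* H}
  (hE : IsExt ι π)

include hE in
theorem pi_iota (n : N) : π (ι n) = 1 := (hE.ex _).2 ⟨n, rfl⟩

include hE in
theorem exists_mul {g g' : G} (h : π g = π g') : ∃ n, g' = g * ι n := by
  have h1 : π (g⁻¹ * g') = 1 := by
    rw [map_mul, map_inv, h, inv_mul_cancel]
  obtain ⟨n, hn⟩ := (hE.ex _).1 h1
  exact ⟨n, by rw [hn, mul_inv_cancel_left]⟩

include hE in
theorem mulinj (g : G) : Function.Injective (fun n => g * ι n) := by
  intro a b h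
  exact hE.inj (mul_left_cancel h)

/-- the coset component -/
noncomputable def cmp (g : G) : ZG G →+ ZG N :=
  MonoidAlgebra.comapDomainAddMonoidHom (fun n => g * ι n) (hE.mulinj g)

theorem cmp_single (g : G) (n : N) (c : ℤ) :
    hE.cmp g (MonoidAlgebra.single (g * ι n) c) = MonoidAlgebra.single n c :=
  MonoidAlgebra.comapDomain_single_map (fun n => g * ι n) (hE.mulinj g) n c

theorem cmp_single_ne (g x : G) (h : π g ≠ π x) (c : ℤ) :
    hE.cmp g (MonoidAlgebra.single x c) = 0 := by
  refine MonoidAlgebra.comapDomain_single_of_not_mem_range ?_ (hE.mulinj g)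
  rintro ⟨n, hn⟩
  apply h
  have hn' : g * ι n = x := hn
  rw [← hn', map_mul, hE.pi_iota, mul_one]

theorem cmp_mul (g : G) (b : ZG G) (a : ZG N) :
    hE.cmp g (b * mp ι a) = hE.cmp g b * a := by
  induction b using MonoidAlgebra.induction_linear with
  | zero => rw [zero_mul, map_zero, zero_mul]
  | add x y hx hy => rw [add_mul, map_add, map_add, hx, hy, add_mul]
  | single x c =>
    induction a using MonoidAlgebra.induction_linear with
    | zero => rw [map_zero, mul_zero, map_zero, mul_zero]
    | add a b ha hb => rw [map_add, mul_add, map_add, ha, hb, mul_add]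
    | single n r =>
      rw [mp_single, MonoidAlgebra.single_mul_single]
      by_cases h : π g = π x
      · obtain ⟨m, rfl⟩ := hE.exists_mul h
        rw [mul_assoc, ← map_mul, cmp_single, cmp_single, MonoidAlgebra.single_mul_single]
      · rw [cmp_single_ne _ _ _ h, cmp_single_ne, zero_mul]
        rwa [map_mul, hE.pi_iota, mul_one]

theorem cmp_og_mul (g : G) (n : N) (a : ZG N) :
    hE.cmp g (og (g * ι n) * mp ι a) = og n * a := by
  rw [cmp_mul]
  congr 1
  exact cmp_single hE g n 1

theorem cmp_og_mul_ne (g g' : G) (h : π g ≠ π g') (a : ZG N) :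
    hE.cmp g (og g' * mp ι a) = 0 := by
  rw [cmp_mul]
  have : hE.cmp g (og g') = 0 := cmp_single_ne hE g g' h 1
  rw [this, zero_mul]

section vec

variable {J I : Type}

/-- the coset component of a vector -/
noncomputable def cm (g : G) : (J → ZG G) →+ (J → ZG N) := (hE.cmp g).compLeft J

theorem cm_apply (g : G) (x : J → ZG G) (j : J) : hE.cm g x j = hE.cmp g (x j) := rfl

theorem cm_vecMul [Fintype J] (g : G) (x : J → ZG G) (M : Matrix J I (ZG N)) :
    hE.cm g (Matrix.vecMul x (M.map (mp ι))) = Matrix.vecMul (hE.cm g x) M := by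
  funext i
  rw [cm_apply, Matrix.vecMul_apply_eq_sum, map_sum, Matrix.vecMul_apply_eq_sum]
  refine Finset.sum_congr rfl (fun j _ => ?_)
  rw [Matrix.map_apply, cmp_mul, cm_apply]

theorem cm_og (g : G) (n : N) (y : J → ZG N) :
    hE.cm g (og (g * ι n) • pv ι y) = og n • y := by
  funext i
  rw [cm_apply, Pi.smul_apply, smul_eq_mul, pv_apply, cmp_og_mul]
  rfl

theorem cm_og_self (g : G) (y : J → ZG N) :
    hE.cm g (og g • pv ι y) = y := by
  have := hE.cm_og g 1 y
  rwa [map_one, mul_one, og_one, one_smul] at this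

theorem cm_og_ne (g g' : G) (h : π g ≠ π g') (y : J → ZG N) :
    hE.cm g (og g' • pv ι y) = 0 := by
  funext i
  rw [cm_apply, Pi.smul_apply, smul_eq_mul, pv_apply, cmp_og_mul_ne _ _ _ h]
  rfl

variable {s : H → G} (hs : ∀ h, π (s h) = h)

include hs in
theorem exists_decomp_one (b : ZG G) : ∃ S : Finset H, ∀ T : Finset H, S ⊆ T →
    b = ∑ h ∈ T, og (s h) * mp ι (hE.cmp (s h) b) := by
  classical
  induction b using MonoidAlgebra.induction_linear with
  | zero =>
    refine ⟨∅, fun T _ => ?_⟩
    symm
    refine Finset.sum_eq_zero (fun h _ => ?_)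
    rw [map_zero, map_zero, mul_zero]
  | add x y hx hy =>
    obtain ⟨S1, h1⟩ := hx
    obtain ⟨S2, h2⟩ := hy
    refine ⟨S1 ∪ S2, fun T hT => ?_⟩
    have e1 := h1 T (Finset.union_subset_left hT)
    have e2 := h2 T (Finset.union_subset_right hT)
    conv_lhs => rw [e1, e2]
    rw [← Finset.sum_add_distrib]
    refine Finset.sum_congr rfl (fun h _ => ?_)
    rw [map_add, map_add, mul_add]
  | single g c =>
    refine ⟨{π g}, fun T hT => ?_⟩
    have hmem : π g ∈ T := hT (Finset.mem_singleton_self _)
    rw [Finset.sum_eq_single_of_mem (π g) hmem]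
    · have h1 : π (s (π g)) = π g := hs _
      obtain ⟨n, hn⟩ := hE.exists_mul h1
      have h2 : hE.cmp (s (π g)) (MonoidAlgebra.single g c) = MonoidAlgebra.single n c := by
        conv_lhs => rw [hn]
        have h3 : s (π (s (π g) * ι n)) = s (π g) := by
          rw [← hn]
        rw [h3]
        exact cmp_single hE _ _ _
      rw [h2, mp_single, og_def, MonoidAlgebra.single_mul_single, ← hn, one_mul]
    · intro h _ hne
      rw [cmp_single_ne, map_zero, mul_zero]
      rw [hs]
      exact hne

include hs in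
theorem exists_decomp [Fintype J] (x : J → ZG G) : ∃ S : Finset H, ∀ T : Finset H, S ⊆ T →
    x = ∑ h ∈ T, og (s h) • pv ι (hE.cm (s h) x) := by
  classical
  choose S hS using fun j => hE.exists_decomp_one hs (x j)
  refine ⟨Finset.univ.biUnion S, fun T hT => ?_⟩
  funext j
  rw [Finset.sum_apply]
  exact hS j T ((Finset.subset_biUnion_of_mem S (Finset.mem_univ j)).trans hT)

include hE in
/-- if all coset components of `x` are in the image of `M` then `x` is in the image of the
induced matrix -/
theorem exists_vecMul [Fintype J] [Fintype I] (M : Matrix I J (ZG N)) (x : J → ZG G)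
    (hx : ∀ g, ∃ y, Matrix.vecMul y M = hE.cm g x) :
    ∃ y, Matrix.vecMul y (M.map (mp ι)) = x := by
  obtain ⟨s, hs⟩ := hE.surj.hasRightInverse
  obtain ⟨S, hS⟩ := hE.exists_decomp hs x
  choose y hy using hx
  refine ⟨∑ h ∈ S, og (s h) • pv ι (y (s h)), ?_⟩
  rw [Matrix.sum_vecMul]
  conv_rhs => rw [hS S (Finset.Subset.refl S)]
  refine Finset.sum_congr rfl (fun h _ => ?_)
  rw [Matrix.smul_vecMul, ← pv_vecMul, hy]

include hE in
/-- exactness is inherited by the induced matrices -/
theorem exact_ind {K : Type} [Fintype J] [Fintype I] (M : Matrix I J (ZG N))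
    (M' : Matrix J K (ZG N))
    (h : ∀ x, Matrix.vecMul x M' = 0 ↔ ∃ y, Matrix.vecMul y M = x) (x : J → ZG G) :
    Matrix.vecMul x (M'.map (mp ι)) = 0 ↔ ∃ y, Matrix.vecMul y (M.map (mp ι)) = x := by
  constructor
  · intro hx
    refine hE.exists_vecMul M x (fun g => ?_)
    rw [← h, ← cm_vecMul, hx, map_zero]
  · rintro ⟨y, rfl⟩
    have hMM : M * M' = 0 := by
      classical
      refine Matrix.ext (fun i k => ?_)
      have h1 : Matrix.vecMul (Matrix.vecMul (Pi.single i 1) M) M' = 0 := (h _).2 ⟨_, rfl⟩
      rw [Matrix.vecMul_vecMul, Matrix.single_one_vecMul] at h1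
      exact congrFun h1 k
    rw [Matrix.vecMul_vecMul, ← Matrix.map_mul, hMM]
    simp

end vec

end IsExt

end Pool.Agent.Helper57K9
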