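import Pool.Agent.Helper57K9.Cone
import Pool.Agent.Helper57K9.Ind

/-!
# Augmentations
-/

set_option autoImplicit false

namespace Pool.Agent.Helper57K9

section ag

variable {G H : Type} [Group G] [Group H]

/-- the augmentation of the group ring -/
noncomputable def ag {G : Type} [Group G] : ZG G →+* ℤ :=
  MonoidAlgebra.liftNCRingHom (RingHom.id ℤ) (1 : G →* ℤ) (fun _ _ => Commute.all _ _)

theorem ag_single (g : G) (c : ℤ) : ag (MonoidAlgebra.single g c : ZG G) = c := by
  unfold ag
  rw [MonoidAlgebra.liftNCRingHom_single]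
  simp

theorem ag_og (g : G) : ag (og g) = 1 := ag_single g 1

theorem ag_unique (ε : ZG G →+* ℤ) (h : ∀ g, ε (MonoidAlgebra.of ℤ G g) = 1) : ε = ag := by
  apply MonoidAlgebra.ringHom_ext
  · intro r
    rw [ag_single, single_eq]
    have : ε (r • og (1 : G)) = r • ε (og (1 : G)) := map_zsmul ε r _
    rw [this, h, smul_eq_mul, mul_one]
  · intro m
    rw [ag_single]
    exact h m

theorem ag_mp (f : G →* H) (x : ZG G) : ag (mp f x) = ag x := by
  induction x using MonoidAlgebra.induction_linear with
  | zero => rw [map_zero, map_zero, map_zero]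
  | add x y hx hy => rw [map_add, map_add, map_add, hx, hy]
  | single m r => rw [mp_single, ag_single, ag_single]

end ag

/-- the trivial module -/
def TZ (_ : Type) : Type := ℤ

instance (G : Type) : AddCommGroup (TZ G) := inferInstanceAs (AddCommGroup ℤ)

noncomputable instance (G : Type) [Group G] : Module (ZG G) (TZ G) :=
  Module.compHom ℤ (ag : ZG G →+* ℤ)

theorem TZ_smul {G : Type} [Group G] (a : ZG G) (x : TZ G) :
    a • x = (show ℤ from ag a * (show ℤ from x)) := rfl

/-- the augmentation of a free module -/
noncomputable def augv (G : Type) [Group G] (J : Type) [Fintype J] :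
    (J → ZG G) →ₗ[ZG G] TZ G where
  toFun x := (show ℤ from ∑ j, ag (x j))
  map_add' x y := by
    change (∑ j, ag (x j + y j) : ℤ) = ∑ j, ag (x j) + ∑ j, ag (y j)
    rw [← Finset.sum_add_distrib]
    exact Finset.sum_congr rfl (fun j _ => map_add _ _ _)
  map_smul' a x := by
    change (∑ j, ag (a * x j) : ℤ) = ag a * ∑ j, ag (x j)
    rw [Finset.mul_sum]
    exact Finset.sum_congr rfl (fun j _ => map_mul _ _ _)

theorem augv_apply {G : Type} [Group G] {J : Type} [Fintype J] (x : J → ZG G) :
    augv G J x = (show ℤ from ∑ j, ag (x j)) := rfl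

theorem mem_ker_augv {G : Type} [Group G] {J : Type} [Fintype J] (x : J → ZG G) :
    x ∈ LinearMap.ker (augv G J) ↔ ∑ j, ag (x j) = 0 := Iff.rfl

theorem augv_surjective {G : Type} [Group G] {J : Type} [Fintype J]
    (h : ∃ x : J → ZG G, ∑ j, ag (x j) = 1) : Function.Surjective (augv G J) := by
  intro z
  obtain ⟨x, hx⟩ := h
  refine ⟨(MonoidAlgebra.single 1 (show ℤ from z) : ZG G) • x, ?_⟩
  rw [map_smul, TZ_smul, ag_single, augv_apply, hx]
  exact mul_one (show ℤ from z)

/-- the group ring `ℤH` as a ring with an action of `ℤG` through `π : G → H` -/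
def RM {G H : Type} [Group G] [Group H] (_ : G →* H) : Type := ZG H

section RM

variable {G H : Type} [Group G] [Group H] (π : G →* H)

noncomputable instance : Ring (RM π) := inferInstanceAs (Ring (ZG H))

noncomputable instance : Module (ZG G) (RM π) := Module.compHom (ZG H) (mp π)

theorem RM_smul (a : ZG G) (x : RM π) : a • x = (show ZG H from mp π a * (show ZG H from x)) :=
  rfl

instance : IsScalarTower (ZG G) (RM π) (RM π) where
  smul_assoc a x y := by
    exact mul_assoc (mp π a : ZG H) (show ZG H from x) (show ZG H from y)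

/-- the augmentation of the induced complex -/
noncomputable def augi (J : Type) [Fintype J] : (J → ZG G) →ₗ[ZG G] RM π where
  toFun x := (show ZG H from ∑ j, mp π (x j))
  map_add' x y := by
    change (∑ j, mp π (x j + y j) : ZG H) = ∑ j, mp π (x j) + ∑ j, mp π (y j)
    rw [← Finset.sum_add_distrib]
    exact Finset.sum_congr rfl (fun j _ => map_add _ _ _)
  map_smul' a x := by
    change (∑ j, mp π (a * x j) : ZG H) = mp π a * ∑ j, mp π (x j)
    rw [Finset.mul_sum]
    exact Finset.sum_congr rfl (fun j _ => map_mul _ _ _)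

theorem augi_apply {J : Type} [Fintype J] (x : J → ZG G) :
    augi π J x = (show ZG H from ∑ j, mp π (x j)) := rfl

end RM

section phi

variable {H : Type} [Group H] {J : Type} [Fintype J]

/-- the map `y ↦ ∑ y_j (γ_j - 1)` -/
noncomputable def phi (γ : J → H) : (J → ZG H) →ₗ[ZG H] ZG H where
  toFun y := ∑ j, y j * (og (γ j) - 1)
  map_add' x y := by
    rw [← Finset.sum_add_distrib]
    exact Finset.sum_congr rfl (fun j _ => add_mul _ _ _)
  map_smul' a x := by
    rw [RingHom.id_apply, smul_eq_mul, Finset.mul_sum]
    exact Finset.sum_congr rfl (fun j _ => mul_assoc _ _ _)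

theorem phi_apply (γ : J → H) (y : J → ZG H) : phi γ y = ∑ j, y j * (og (γ j) - 1) := rfl

theorem ag_phi (γ : J → H) (y : J → ZG H) : ag (phi γ y) = 0 := by
  rw [phi_apply, map_sum]
  refine Finset.sum_eq_zero (fun j _ => ?_)
  rw [map_mul, map_sub, ag_og, map_one, sub_self, mul_zero]

theorem og_sub_one_mem (γ : J → H) (hγ : Submonoid.closure (Set.range γ) = ⊤) (h : H) :
    og h - 1 ∈ LinearMap.range (phi γ) := by
  classical
  have hh : h ∈ Submonoid.closure (Set.range γ) := by
    rw [hγ]
    exact Submonoid.mem_top h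
  induction hh using Submonoid.closure_induction with
  | mem x hx =>
    obtain ⟨j, rfl⟩ := hx
    refine ⟨Pi.single j 1, ?_⟩
    rw [phi_apply, Finset.sum_eq_single j]
    · rw [Pi.single_eq_same, one_mul]
    · intro i _ hi
      rw [Pi.single_eq_of_ne hi, zero_mul]
    · intro hj
      exact absurd (Finset.mem_univ j) hj
  | one =>
    rw [og_one, sub_self]
    exact Submodule.zero_mem _
  | mul x y _ _ hx hy =>
    have : og (x * y) - 1 = og x • (og y - 1) + (og x - 1) := by
      rw [og_mul, smul_eq_mul, mul_sub, mul_one]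
      abel
    rw [this]
    exact Submodule.add_mem _ (Submodule.smul_mem _ _ hy) hx

theorem range_phi (γ : J → H) (hγ : Submonoid.closure (Set.range γ) = ⊤) (b : ZG H) :
    b ∈ LinearMap.range (phi γ) ↔ ag b = 0 := by
  constructor
  · rintro ⟨y, rfl⟩
    exact ag_phi γ y
  · intro hb
    have key : ∀ b : ZG H, b - ag b • (1 : ZG H) ∈ LinearMap.range (phi γ) := by
      intro b
      induction b using MonoidAlgebra.induction_linear with
      | zero =>
        rw [map_zero, zero_smul, sub_zero]
        exact Submodule.zero_mem _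
      | add x y hx hy =>
        have : x + y - ag (x + y) • (1 : ZG H) = (x - ag x • (1 : ZG H)) +
            (y - ag y • (1 : ZG H)) := by
          rw [map_add, add_smul]
          abel
        rw [this]
        exact Submodule.add_mem _ hx hy
      | single m r =>
        rw [ag_single, single_eq, ← smul_sub]
        exact zsmul_mem (og_sub_one_mem γ hγ m) r
    have := key b
    rwa [hb, zero_smul, sub_zero] at this

theorem FP_ker_phi (γ : J → H) (hγ : Submonoid.closure (Set.range γ) = ⊤) {m : ℕ}
    (hH : FP (ZG H) (m + 2) (TZ H)) : FP (ZG H) m (LinearMap.ker (phi γ)) := by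
  -- the augmentation ideal
  have h1 : FP (ZG H) (m + 1) (LinearMap.ker (augv H Unit)) := by
    refine FP.ker (augv H Unit) (augv_surjective ⟨fun _ => 1, ?_⟩) (FP.free _ _) hH
    simp
  have hmem : ∀ y, (fun _ : Unit => phi γ y) ∈ LinearMap.ker (augv H Unit) := by
    intro y
    rw [mem_ker_augv]
    simp [ag_phi]
  let g : (J → ZG H) →ₗ[ZG H] LinearMap.ker (augv H Unit) :=
    LinearMap.codRestrict _ (LinearMap.pi (fun _ : Unit => phi γ)) hmem
  have hg : Function.Surjective g := by
    rintro ⟨x, hx⟩
    have hx' : ag (x ()) = 0 := by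
      rw [mem_ker_augv] at hx
      simpa using hx
    obtain ⟨y, hy⟩ := (range_phi γ hγ (x ())).2 hx'
    exact ⟨y, Subtype.ext (funext fun _ => hy)⟩
  have h2 := FP.ker g hg (FP.free m _) h1
  have h3 : LinearMap.ker g = LinearMap.ker (phi γ) := by
    ext y
    rw [LinearMap.mem_ker, LinearMap.mem_ker]
    constructor
    · intro h
      exact congrFun (congrArg Subtype.val h) ()
    · intro h
      exact Subtype.ext (funext fun _ => h)
  rw [h3] at h2
  exact h2

end phi

end Pool.Agent.Helper57K9
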