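import Pool.Agent.Helper57K9.FPr

/-!
# The syzygy recursion for a map of modules with partial resolutions
-/

set_option autoImplicit false

namespace Pool.Agent.Helper57K9

variable {R : Type} [Ring R]

/-- the pull-back `{(f, a) | p f = φ a, a ∈ Z}` -/
def TT {A1 A0 F : Type} [AddCommGroup A1] [Module R A1] [AddCommGroup A0] [Module R A0]
    [AddCommGroup F] [Module R F] (p : F →ₗ[R] A0) (φ : A1 →ₗ[R] A0) (Z : Submodule R A1) :
    Submodule R (F × A1) where
  carrier := {x | p x.1 = φ x.2 ∧ x.2 ∈ Z}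
  add_mem' := by
    rintro ⟨a, b⟩ ⟨c, d⟩ ⟨h1, h2⟩ ⟨h3, h4⟩
    refine ⟨?_, Z.add_mem h2 h4⟩
    change p (a + c) = φ (b + d)
    rw [map_add, map_add]
    exact congrArg₂ (· + ·) h1 h3
  zero_mem' := ⟨by simp, Z.zero_mem⟩
  smul_mem' := by
    rintro r ⟨a, b⟩ ⟨h1, h2⟩
    refine ⟨?_, Z.smul_mem r h2⟩
    change p (r • a) = φ (r • b)
    rw [map_smul, map_smul]
    exact congrArg (r • ·) h1

section step

variable {A1 A0 F E F' : Type} [AddCommGroup A1] [Module R A1] [AddCommGroup A0] [Module R A0]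
    [AddCommGroup F] [Module R F] [AddCommGroup E] [Module R E] [AddCommGroup F'] [Module R F']

theorem mem_TT {p : F →ₗ[R] A0} {φ : A1 →ₗ[R] A0} {Z : Submodule R A1} {x : F × A1} :
    x ∈ TT p φ Z ↔ p x.1 = φ x.2 ∧ x.2 ∈ Z := Iff.rfl

/-- the covering map of one step -/
def stepMap (p : F →ₗ[R] A0) (φ : A1 →ₗ[R] A0) (Z : Submodule R A1) (q : E →ₗ[R] A1)
    (hq : LinearMap.range q = Z) (u : E →ₗ[R] F) (h : p.comp u = φ.comp q) (d : F' →ₗ[R] F)
    (hd : LinearMap.range d = LinearMap.ker p) : (F' × E) →ₗ[R] TT p φ Z :=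
  LinearMap.codRestrict (TT p φ Z) (LinearMap.prod (LinearMap.coprod d u)
    (q.comp (LinearMap.snd R F' E))) (by
      rintro ⟨f, e⟩
      refine ⟨?_, ?_⟩
      · change p (d f + u e) = φ (q e)
        have h1 : p (d f) = 0 := by
          have : d f ∈ LinearMap.ker p := by
            rw [← hd]
            exact LinearMap.mem_range_self _ _
          exact this
        rw [map_add, h1, zero_add]
        exact LinearMap.congr_fun h e
      · rw [← hq]
        exact LinearMap.mem_range_self q e)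

theorem stepMap_surjective (p : F →ₗ[R] A0) (φ : A1 →ₗ[R] A0) (Z : Submodule R A1)
    (q : E →ₗ[R] A1) (hq : LinearMap.range q = Z) (u : E →ₗ[R] F) (h : p.comp u = φ.comp q)
    (d : F' →ₗ[R] F) (hd : LinearMap.range d = LinearMap.ker p) :
    Function.Surjective (stepMap p φ Z q hq u h d hd) := by
  rintro ⟨⟨f, a⟩, hfa, ha⟩
  have ha' : a ∈ LinearMap.range q := by
    rw [hq]
    exact ha
  obtain ⟨e, rfl⟩ := ha'
  have h1 : f - u e ∈ LinearMap.range d := by
    rw [hd, LinearMap.mem_ker, map_sub, sub_eq_zero]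
    have h2 : p (u e) = φ (q e) := LinearMap.congr_fun h e
    rw [h2]
    exact hfa
  obtain ⟨f', hf'⟩ := h1
  refine ⟨(f', e), Subtype.ext (Prod.ext ?_ rfl)⟩
  change d f' + u e = f
  rw [hf', sub_add_cancel]

/-- the kernel of the covering map -/
noncomputable def stepKer (p : F →ₗ[R] A0) (φ : A1 →ₗ[R] A0) (Z : Submodule R A1)
    (q : E →ₗ[R] A1) (hq : LinearMap.range q = Z) (u : E →ₗ[R] F) (h : p.comp u = φ.comp q)
    (d : F' →ₗ[R] F) (hd : LinearMap.range d = LinearMap.ker p) :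
    TT d u (LinearMap.ker q) ≃ₗ[R] LinearMap.ker (stepMap p φ Z q hq u h d hd) := by
  refine LinearEquiv.ofBijective (LinearMap.codRestrict _
    ((LinearMap.prod (LinearMap.fst R F' E) (-(LinearMap.snd R F' E))).comp
      (TT d u (LinearMap.ker q)).subtype) ?_) ⟨?_, ?_⟩
  · rintro ⟨⟨f, e⟩, h1, h2⟩
    rw [LinearMap.mem_ker]
    apply Subtype.ext
    refine Prod.ext ?_ ?_
    · change d f + u (-e) = 0
      rw [map_neg, ← sub_eq_add_neg, sub_eq_zero]
      exact h1
    · change q (-e) = 0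
      rw [map_neg, neg_eq_zero]
      exact h2
  · rintro ⟨⟨f, e⟩, h1⟩ ⟨⟨f', e'⟩, h1'⟩ hxx
    have ha := congrArg (fun z : LinearMap.ker (stepMap p φ Z q hq u h d hd) => z.1.1) hxx
    have hb := congrArg (fun z : LinearMap.ker (stepMap p φ Z q hq u h d hd) => z.1.2) hxx
    refine Subtype.ext (Prod.ext ha ?_)
    have hb' : -e = -e' := hb
    exact neg_injective hb'
  · rintro ⟨⟨f, e⟩, h1⟩
    have h2 := congrArg (fun z : TT p φ Z => z.1.1) (LinearMap.mem_ker.1 h1)
    have h3 := congrArg (fun z : TT p φ Z => z.1.2) (LinearMap.mem_ker.1 h1)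
    have h2' : d f + u e = 0 := h2
    have h3' : q e = 0 := h3
    refine ⟨⟨(f, -e), ?_, ?_⟩, ?_⟩
    · change d f = u (-e)
      rw [map_neg]
      exact eq_neg_of_add_eq_zero_left h2'
    · change q (-e) = 0
      rw [map_neg, h3', neg_zero]
    · apply Subtype.ext
      refine Prod.ext rfl ?_
      exact neg_neg e

theorem step_iff [Module.Free R E] [Module.Finite R E] [Module.Free R F'] [Module.Finite R F']
    (p : F →ₗ[R] A0) (φ : A1 →ₗ[R] A0) (Z : Submodule R A1)
    (q : E →ₗ[R] A1) (hq : LinearMap.range q = Z) (u : E →ₗ[R] F) (h : p.comp u = φ.comp q)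
    (d : F' →ₗ[R] F) (hd : LinearMap.range d = LinearMap.ker p) (m : ℕ) :
    FP R (m + 1) (TT p φ Z) ↔ FP R m (TT d u (LinearMap.ker q)) := by
  constructor
  · intro hT
    refine FP.of_equiv (stepKer p φ Z q hq u h d hd).symm ?_
    exact FP.ker _ (stepMap_surjective p φ Z q hq u h d hd) (FP.free m _) hT
  · intro hT
    exact FP.of_cover _ (stepMap_surjective p φ Z q hq u h d hd)
      (FP.of_equiv (stepKer p φ Z q hq u h d hd) hT)

theorem step_zero_iff [Module.Finite R E]
    (p : F →ₗ[R] A0) (φ : A1 →ₗ[R] A0) (Z : Submodule R A1)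
    (q : E →ₗ[R] A1) (hq : LinearMap.range q = Z) (u : E →ₗ[R] F) (h : p.comp u = φ.comp q) :
    FP R 0 (TT p φ Z) ↔ ∃ W : Submodule R F, W.FG ∧
      LinearMap.ker p = W ⊔ Submodule.map u (LinearMap.ker q) := by
  have hu : ∀ e, p (u e) = φ (q e) := fun e => LinearMap.congr_fun h e
  constructor
  · intro hT
    have hT' : Module.Finite R (TT p φ Z) := hT
    obtain ⟨k, g, hg⟩ := Module.Finite.exists_fin' R (TT p φ Z)
    -- lift the second coordinate to E
    have hsec : ∀ i : Fin k, ∃ e : E, q e = (g (Pi.single i 1)).1.2 := by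
      intro i
      have : (g (Pi.single i 1)).1.2 ∈ LinearMap.range q := by
        rw [hq]
        exact (g (Pi.single i 1)).2.2
      exact this
    choose e he using hsec
    let w : Fin k → F := fun i => (g (Pi.single i 1)).1.1 - u (e i)
    have hw : ∀ i, w i ∈ LinearMap.ker p := by
      intro i
      rw [LinearMap.mem_ker, map_sub, sub_eq_zero, hu, he]
      exact (g (Pi.single i 1)).2.1
    refine ⟨Submodule.span R (Set.range w), Submodule.fg_span (Set.finite_range w), ?_⟩
    apply le_antisymm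
    · intro x hx
      have hx' : ((x, 0) : F × A1) ∈ TT p φ Z := by
        refine ⟨?_, Z.zero_mem⟩
        change p x = φ 0
        rw [map_zero]
        exact hx
      obtain ⟨c, hc⟩ := hg ⟨(x, 0), hx'⟩
      have hc' : c = ∑ i, c i • (Pi.single i (1 : R) : Fin k → R) := by
        funext j
        rw [Finset.sum_apply]
        simp [Pi.single_apply]
      have hsum : ((x, 0) : F × A1) = ∑ i, c i • (g (Pi.single i 1)).1 := by
        have h1 : (g c).1 = (x, 0) := congrArg Subtype.val hc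
        rw [← h1]
        conv_lhs => rw [hc']
        rw [map_sum]
        rw [Submodule.coe_sum]
        refine Finset.sum_congr rfl (fun i _ => ?_)
        rw [map_smul]
        rfl
      have h1 : x = ∑ i, c i • (g (Pi.single i 1)).1.1 := by
        have := congrArg Prod.fst hsum
        rw [Prod.fst_sum] at this
        exact this
      have h2 : (0 : A1) = ∑ i, c i • (g (Pi.single i 1)).1.2 := by
        have := congrArg Prod.snd hsum
        rw [Prod.snd_sum] at this
        exact this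
      rw [Submodule.mem_sup]
      refine ⟨∑ i, c i • w i, ?_, u (∑ i, c i • e i), ?_, ?_⟩
      · exact Submodule.sum_mem _ (fun i _ => Submodule.smul_mem _ _
          (Submodule.subset_span ⟨i, rfl⟩))
      · refine ⟨_, ?_, rfl⟩
        change q (∑ i, c i • e i) = 0
        rw [map_sum, h2]
        refine Finset.sum_congr rfl (fun i _ => ?_)
        rw [map_smul, he]
      · rw [map_sum, ← Finset.sum_add_distrib, h1]
        refine Finset.sum_congr rfl (fun i _ => ?_)
        rw [map_smul, ← smul_add]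
        change c i • ((g (Pi.single i 1)).1.1 - u (e i) + u (e i)) = _
        rw [sub_add_cancel]
    · refine sup_le ?_ ?_
      · rw [Submodule.span_le]
        rintro _ ⟨i, rfl⟩
        exact hw i
      · rintro _ ⟨e, he, rfl⟩
        rw [LinearMap.mem_ker, hu, LinearMap.mem_ker.1 he, map_zero]
  · rintro ⟨W, hW, hk⟩
    have hWk : W ≤ LinearMap.ker p := by
      rw [hk]
      exact le_sup_left
    let G : (W × E) →ₗ[R] TT p φ Z := LinearMap.codRestrict (TT p φ Z)
      (LinearMap.prod (LinearMap.coprod W.subtype u) (q.comp (LinearMap.snd R W E))) (by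
        rintro ⟨⟨w, hw⟩, e⟩
        refine ⟨?_, ?_⟩
        · change p (w + u e) = φ (q e)
          rw [map_add, LinearMap.mem_ker.1 (hWk hw), zero_add, hu]
        · rw [← hq]
          exact LinearMap.mem_range_self q e)
    have hWf : Module.Finite R W := Module.Finite.iff_fg.2 hW
    have hG : Function.Surjective G := by
      rintro ⟨⟨f, a⟩, hfa, ha⟩
      have ha' : a ∈ LinearMap.range q := by
        rw [hq]
        exact ha
      obtain ⟨e, rfl⟩ := ha'
      have h1 : f - u e ∈ LinearMap.ker p := by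
        rw [LinearMap.mem_ker, map_sub, sub_eq_zero, hu]
        exact hfa
      rw [hk, Submodule.mem_sup] at h1
      obtain ⟨w, hw, y, ⟨e', he', rfl⟩, hy⟩ := h1
      refine ⟨(⟨w, hw⟩, e' + e), Subtype.ext (Prod.ext ?_ ?_)⟩
      · change w + u (e' + e) = f
        rw [map_add, ← add_assoc, hy, sub_add_cancel]
      · change q (e' + e) = q e
        rw [map_add, LinearMap.mem_ker.1 he', zero_add]
    exact Module.Finite.of_surjective G hG

end step

section chain

variable {A1 A0 : Type} [AddCommGroup A1] [Module R A1] [AddCommGroup A0] [Module R A0]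
  {F E : ℕ → Type} [∀ i, AddCommGroup (F i)] [∀ i, Module R (F i)]
  [∀ i, Module.Free R (F i)] [∀ i, Module.Finite R (F i)]
  [∀ i, AddCommGroup (E i)] [∀ i, Module R (E i)]
  [∀ i, Module.Free R (E i)] [∀ i, Module.Finite R (E i)]

/-- cycles of an augmented complex -/
def ZZ (aE : E 0 →ₗ[R] A1) (dE : ∀ i, E (i + 1) →ₗ[R] E i) : ∀ i, Submodule R (E i)
  | 0 => LinearMap.ker aE
  | i + 1 => LinearMap.ker (dE i)

theorem chain_iff (m : ℕ) (φ : A1 →ₗ[R] A0)
    (aF : F 0 →ₗ[R] A0) (dF : ∀ i, F (i + 1) →ₗ[R] F i)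
    (aE : E 0 →ₗ[R] A1) (dE : ∀ i, E (i + 1) →ₗ[R] E i)
    (u : ∀ i, E i →ₗ[R] F i)
    (haE : Function.Surjective aE)
    (hF : ∀ i, i ≤ m → LinearMap.range (dF i) = ZZ aF dF i)
    (hE : ∀ i, i ≤ m → LinearMap.range (dE i) = ZZ aE dE i)
    (hu0 : aF.comp (u 0) = φ.comp aE)
    (hu : ∀ i, i ≤ m → (dF i).comp (u (i + 1)) = (u i).comp (dE i)) :
    FP R (m + 1) (TT aF φ ⊤) ↔ ∃ W : Submodule R (F (m + 1)), W.FG ∧
      LinearMap.ker (dF m) = W ⊔ Submodule.map (u (m + 1)) (LinearMap.ker (dE m)) := by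
  have h0 : FP R (m + 1) (TT aF φ ⊤) ↔ FP R m (TT (dF 0) (u 0) (ZZ aE dE 0)) :=
    step_iff aF φ ⊤ aE (LinearMap.range_eq_top.2 haE) (u 0) hu0 (dF 0) (hF 0 (Nat.zero_le m)) m
  have h1 : ∀ i, i ≤ m → (FP R (m + 1) (TT aF φ ⊤) ↔
      FP R (m - i) (TT (dF i) (u i) (ZZ aE dE i))) := by
    intro i
    induction i with
    | zero => intro _; exact h0
    | succ i ih =>
      intro hi
      rw [ih (by omega)]
      have h2 : m - i = (m - (i + 1)) + 1 := by omega
      rw [h2]
      exact step_iff (dF i) (u i) (ZZ aE dE i) (dE i) (hE i (by omega)) (u (i + 1))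
        (hu i (by omega)) (dF (i + 1)) (hF (i + 1) hi) (m - (i + 1))
  rw [h1 m le_rfl, Nat.sub_self]
  exact step_zero_iff (dF m) (u m) (ZZ aE dE m) (dE m) (hE m le_rfl) (u (m + 1)) (hu m le_rfl)

end chain

section ends

variable {A1 A0 F : Type} [AddCommGroup A1] [Module R A1] [AddCommGroup A0] [Module R A0]
    [AddCommGroup F] [Module R F]

/-- the first projection of `TT` -/
def TTfst (p : F →ₗ[R] A0) (φ : A1 →ₗ[R] A0) :
    TT p φ ⊤ →ₗ[R] Submodule.comap p (LinearMap.range φ) :=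
  LinearMap.codRestrict _ ((LinearMap.fst R F A1).comp (TT p φ ⊤).subtype) (by
    rintro ⟨⟨f, a⟩, h1, h2⟩
    exact ⟨a, h1.symm⟩)

theorem TTfst_surjective (p : F →ₗ[R] A0) (φ : A1 →ₗ[R] A0) :
    Function.Surjective (TTfst p φ) := by
  rintro ⟨f, a, ha⟩
  exact ⟨⟨(f, a), ha.symm, Submodule.mem_top⟩, rfl⟩

/-- the kernel of the first projection -/
noncomputable def TTker (p : F →ₗ[R] A0) (φ : A1 →ₗ[R] A0) :
    LinearMap.ker φ ≃ₗ[R] LinearMap.ker (TTfst p φ) := by
  refine LinearEquiv.ofBijective (LinearMap.codRestrict _ (LinearMap.codRestrict (TT p φ ⊤)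
    ((LinearMap.inr R F A1).comp (LinearMap.ker φ).subtype) ?_) ?_) ⟨?_, ?_⟩
  · rintro ⟨a, ha⟩
    refine ⟨?_, Submodule.mem_top⟩
    change p 0 = φ a
    rw [map_zero]
    exact ha.symm
  · rintro ⟨a, ha⟩
    rfl
  · rintro ⟨a, ha⟩ ⟨a', ha'⟩ h
    exact Subtype.ext (congrArg (fun z : LinearMap.ker (TTfst p φ) => z.1.1.2) h)
  · rintro ⟨⟨⟨f, a⟩, h1, h2⟩, h3⟩
    have hf : f = 0 := congrArg (fun z : Submodule.comap p (LinearMap.range φ) => z.1)
      (LinearMap.mem_ker.1 h3)
    subst hf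
    refine ⟨⟨a, ?_⟩, rfl⟩
    have h1' : p 0 = φ a := h1
    rw [LinearMap.mem_ker, ← h1', map_zero]

theorem TT_of {m : ℕ} (p : F →ₗ[R] A0) (φ : A1 →ₗ[R] A0)
    (h1 : FP R m (Submodule.comap p (LinearMap.range φ))) (h2 : FP R m (LinearMap.ker φ)) :
    FP R m (TT p φ ⊤) :=
  FP.ext (TTfst p φ) (TTfst_surjective p φ) (FP.of_equiv (TTker p φ) h2) h1

theorem of_TT {m : ℕ} (p : F →ₗ[R] A0) (φ : A1 →ₗ[R] A0)
    (h1 : FP R (m + 1) (TT p φ ⊤)) (h2 : FP R m (LinearMap.ker φ)) :
    FP R (m + 1) (Submodule.comap p (LinearMap.range φ)) :=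
  FP.quot (TTfst p φ) (TTfst_surjective p φ) (FP.of_equiv (TTker p φ) h2) h1

end ends

end Pool.Agent.Helper57K9
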