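import Mathlib

/-!
# Modules of type `FP_m` (with free modules) and short exact sequences
-/

set_option autoImplicit false

namespace Pool.Agent.Helper57K9

/-- `M` is of type `FP_m`: there is an exact sequence `R^{k_m} → ... → R^{k_0} → M → 0`. -/
def FP (R : Type) [Ring R] : ℕ → ∀ (M : Type) [AddCommGroup M] [Module R M], Prop
  | 0, M, _, _ => Module.Finite R M
  | m + 1, M, _, _ => ∃ (k : ℕ) (f : (Fin k → R) →ₗ[R] M),
      Function.Surjective f ∧ FP R m (LinearMap.ker f)

variable {R : Type} [Ring R]

theorem FP.of_equiv : ∀ {m : ℕ} {M M' : Type} [AddCommGroup M] [Module R M] [AddCommGroup M']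
    [Module R M'] (_ : M ≃ₗ[R] M'), FP R m M → FP R m M' := by
  intro m
  cases m with
  | zero =>
    intro M M' _ _ _ _ e h
    have h' : Module.Finite R M := h
    exact Module.Finite.equiv e
  | succ m =>
    intro M M' _ _ _ _ e h
    obtain ⟨k, f, hf, hk⟩ := h
    refine ⟨k, e.toLinearMap.comp f, e.surjective.comp hf, ?_⟩
    have : LinearMap.ker (e.toLinearMap.comp f) = LinearMap.ker f := LinearEquiv.ker_comp e f
    rw [this]
    exact hk

theorem FP.of_subsingleton (m : ℕ) : ∀ (M : Type) [AddCommGroup M] [Module R M]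
    [Subsingleton M], FP R m M := by
  induction m with
  | zero =>
    intro M _ _ _
    change Module.Finite R M
    infer_instance
  | succ m ih =>
    intro M _ _ _
    refine ⟨0, 0, fun x => ⟨0, Subsingleton.elim _ _⟩, ?_⟩
    exact ih _

theorem FP.fin_free (m k : ℕ) : FP R m (Fin k → R) := by
  cases m with
  | zero =>
    change Module.Finite R (Fin k → R)
    infer_instance
  | succ m =>
    refine ⟨k, LinearMap.id, Function.surjective_id, ?_⟩
    have : Subsingleton (LinearMap.ker (LinearMap.id : (Fin k → R) →ₗ[R] (Fin k → R))) := by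
      rw [LinearMap.ker_id]
      infer_instance
    exact FP.of_subsingleton m _

/-- a finite free module is isomorphic to some `R^k` -/
theorem exists_equiv_fin (F : Type) [AddCommGroup F] [Module R F] [Module.Free R F]
    [Module.Finite R F] : ∃ k : ℕ, Nonempty ((Fin k → R) ≃ₗ[R] F) := by
  let b := Module.Free.chooseBasis R F
  let e := Fintype.equivFin (Module.Free.ChooseBasisIndex R F)
  exact ⟨_, ⟨((b.reindex e).equivFun).symm⟩⟩

theorem FP.free (m : ℕ) (F : Type) [AddCommGroup F] [Module R F] [Module.Free R F]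
    [Module.Finite R F] : FP R m F := by
  obtain ⟨k, ⟨e⟩⟩ := exists_equiv_fin (R := R) F
  exact FP.of_equiv e (FP.fin_free m k)

theorem FP.of_cover {m : ℕ} {F M : Type} [AddCommGroup F] [Module R F] [Module.Free R F]
    [Module.Finite R F] [AddCommGroup M] [Module R M] (f : F →ₗ[R] M)
    (hf : Function.Surjective f) (hk : FP R m (LinearMap.ker f)) : FP R (m + 1) M := by
  obtain ⟨k, ⟨e⟩⟩ := exists_equiv_fin (R := R) F
  refine ⟨k, f.comp e.toLinearMap, hf.comp e.surjective, ?_⟩
  refine FP.of_equiv (M := LinearMap.ker f) ?_ hk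
  refine (LinearEquiv.ofSubmodules e (LinearMap.ker (f.comp e.toLinearMap))
    (LinearMap.ker f) ?_).symm
  ext x
  simp only [Submodule.mem_map, LinearMap.mem_ker]
  constructor
  · rintro ⟨y, hy, rfl⟩
    exact hy
  · intro hx
    refine ⟨e.symm x, ?_, ?_⟩
    · simpa using hx
    · simp

theorem FP.pred : ∀ {m : ℕ} {M : Type} [AddCommGroup M] [Module R M], FP R (m + 1) M →
    FP R m M := by
  intro m
  induction m with
  | zero =>
    intro M _ _ h
    obtain ⟨k, f, hf, hk⟩ := h
    exact Module.Finite.of_surjective f hf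
  | succ m ih =>
    intro M _ _ h
    obtain ⟨k, f, hf, hk⟩ := h
    exact ⟨k, f, hf, ih hk⟩

theorem FP.mono {n m : ℕ} (hnm : n ≤ m) {M : Type} [AddCommGroup M] [Module R M]
    (h : FP R m M) : FP R n M := by
  induction m, hnm using Nat.le_induction with
  | base => exact h
  | succ m _ ih => exact ih (FP.pred h)

theorem FP.finite {m : ℕ} {M : Type} [AddCommGroup M] [Module R M]
    (h : FP R m M) : Module.Finite R M := FP.mono (Nat.zero_le m) h

/-- extension: if kernel and image are `FP_m`, so is the middle -/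
theorem FP.ext : ∀ {m : ℕ} {B C : Type} [AddCommGroup B] [Module R B] [AddCommGroup C]
    [Module R C] (g : B →ₗ[R] C), Function.Surjective g → FP R m (LinearMap.ker g) →
    FP R m C → FP R m B := by
  intro m
  induction m with
  | zero =>
    intro B C _ _ _ _ g hg hA hC
    have hA' : (LinearMap.ker g).FG := Module.Finite.iff_fg.1 hA
    have hC' : (⊤ : Submodule R C).FG := Module.Finite.fg_top (self := hC)
    have hB : (⊤ : Submodule R B).FG := by
      refine Submodule.fg_of_fg_map_of_fg_inf_ker g ?_ ?_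
      · rw [Submodule.map_top, LinearMap.range_eq_top.2 hg]
        exact hC'
      · rwa [top_inf_eq]
    exact ⟨hB⟩
  | succ m ih =>
    intro B C _ _ _ _ g hg hA hC
    obtain ⟨a, fA, hfA, hkA⟩ := hA
    obtain ⟨c, fC, hfC, hkC⟩ := hC
    obtain ⟨h, hh⟩ := Module.projective_lifting_property g fC hg
    have hh' : ∀ y, g (h y) = fC y := fun y => LinearMap.congr_fun hh y
    let F : ((Fin a → R) × (Fin c → R)) →ₗ[R] B :=
      LinearMap.coprod ((LinearMap.ker g).subtype.comp fA) h
    have hF : ∀ x y, F (x, y) = (fA x : B) + h y := fun x y => rfl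
    refine FP.of_cover F ?_ ?_
    · intro b
      obtain ⟨y, hy⟩ := hfC (g b)
      have hb : b - h y ∈ LinearMap.ker g := by
        rw [LinearMap.mem_ker, map_sub, hh', hy, sub_self]
      obtain ⟨x, hx⟩ := hfA ⟨b - h y, hb⟩
      refine ⟨(x, y), ?_⟩
      rw [hF, hx]
      exact sub_add_cancel _ _
    · -- kernel of F maps onto kernel of fC with kernel ≅ kernel of fA
      have hmem : ∀ z : LinearMap.ker F, (z : (Fin a → R) × (Fin c → R)).2 ∈ LinearMap.ker fC := by
        rintro ⟨⟨x, y⟩, hz⟩
        have hz' : (fA x : B) + h y = 0 := hz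
        have := congrArg g hz'
        rw [map_add, hh', map_zero, LinearMap.mem_ker.1 (fA x).2, zero_add] at this
        exact this
      let G : LinearMap.ker F →ₗ[R] LinearMap.ker fC :=
        LinearMap.codRestrict (LinearMap.ker fC)
          ((LinearMap.snd R (Fin a → R) (Fin c → R)).comp (LinearMap.ker F).subtype) hmem
      refine ih G ?_ ?_ hkC
      · rintro ⟨y, hy⟩
        have hy' : -(h y) ∈ LinearMap.ker g := by
          rw [LinearMap.mem_ker, map_neg, hh', LinearMap.mem_ker.1 hy, neg_zero]
        obtain ⟨x, hx⟩ := hfA ⟨-(h y), hy'⟩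
        refine ⟨⟨(x, y), ?_⟩, ?_⟩
        · rw [LinearMap.mem_ker, hF, hx]
          exact neg_add_cancel _
        · rfl
      · refine FP.of_equiv (M := LinearMap.ker fA) ?_ hkA
        refine LinearEquiv.ofBijective
          (LinearMap.codRestrict (LinearMap.ker G)
            (LinearMap.codRestrict (LinearMap.ker F)
              ((LinearMap.inl R (Fin a → R) (Fin c → R)).comp (LinearMap.ker fA).subtype) ?_) ?_)
          ⟨?_, ?_⟩
        · rintro ⟨x, hx⟩
          rw [LinearMap.mem_ker] at hx ⊢
          change F (x, 0) = 0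
          rw [hF, hx, map_zero, add_zero]
          rfl
        · rintro ⟨x, hx⟩
          rw [LinearMap.mem_ker]
          rfl
        · rintro ⟨x, hx⟩ ⟨x', hx'⟩ hxx
          have h1 := congrArg (fun z : LinearMap.ker G => z.1.1.1) hxx
          exact Subtype.ext h1
        · rintro ⟨⟨⟨x, y⟩, hz⟩, hz2⟩
          have hy : y = 0 := congrArg (fun z : LinearMap.ker fC => z.1) (LinearMap.mem_ker.1 hz2)
          subst hy
          have hx : fA x = 0 := by
            have hz' : (fA x : B) + h 0 = 0 := hz
            rw [map_zero, add_zero] at hz'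
            exact Subtype.ext hz'
          exact ⟨⟨x, hx⟩, rfl⟩

/-- quotient: if `B` is `FP_{m+1}` and the kernel is `FP_m` then the image is `FP_{m+1}` -/
theorem FP.quot {m : ℕ} {B C : Type} [AddCommGroup B] [Module R B] [AddCommGroup C]
    [Module R C] (g : B →ₗ[R] C) (hg : Function.Surjective g) (hA : FP R m (LinearMap.ker g))
    (hB : FP R (m + 1) B) : FP R (m + 1) C := by
  obtain ⟨k, f, hf, hk⟩ := hB
  refine ⟨k, g.comp f, hg.comp hf, ?_⟩
  let G : LinearMap.ker (g.comp f) →ₗ[R] LinearMap.ker g :=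
    LinearMap.codRestrict (LinearMap.ker g) (f.comp (LinearMap.ker (g.comp f)).subtype)
      (fun z => z.2)
  refine FP.ext G ?_ ?_ hA
  · rintro ⟨y, hy⟩
    obtain ⟨x, hx⟩ := hf y
    refine ⟨⟨x, ?_⟩, ?_⟩
    · rw [LinearMap.mem_ker, LinearMap.comp_apply, hx]
      exact hy
    · exact Subtype.ext hx
  · refine FP.of_equiv (M := LinearMap.ker f) ?_ hk
    refine LinearEquiv.ofBijective
      (LinearMap.codRestrict (LinearMap.ker G)
        (LinearMap.codRestrict (LinearMap.ker (g.comp f)) (LinearMap.ker f).subtype ?_) ?_)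
      ⟨?_, ?_⟩
    · rintro ⟨x, hx⟩
      rw [LinearMap.mem_ker] at hx ⊢
      change g (f x) = 0
      rw [hx, map_zero]
    · rintro ⟨x, hx⟩
      rw [LinearMap.mem_ker]
      exact Subtype.ext hx
    · rintro ⟨x, hx⟩ ⟨x', hx'⟩ hxx
      have h1 := congrArg (fun z : LinearMap.ker G => z.1.1) hxx
      exact Subtype.ext h1
    · rintro ⟨⟨x, hz⟩, hz2⟩
      have hx : f x = 0 := congrArg (fun z : LinearMap.ker g => z.1) (LinearMap.mem_ker.1 hz2)
      exact ⟨⟨x, hx⟩, rfl⟩

/-- kernel: if `B` is `FP_m` and the image is `FP_{m+1}` then the kernel is `FP_m` -/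
theorem FP.ker {m : ℕ} {B C : Type} [AddCommGroup B] [Module R B] [AddCommGroup C]
    [Module R C] (g : B →ₗ[R] C) (hg : Function.Surjective g) (hB : FP R m B)
    (hC : FP R (m + 1) C) : FP R m (LinearMap.ker g) := by
  obtain ⟨c, f, hf, hk⟩ := hC
  obtain ⟨h, hh⟩ := Module.projective_lifting_property g f hg
  have hh' : ∀ y, g (h y) = f y := fun y => LinearMap.congr_fun hh y
  let F : ((LinearMap.ker g) × (Fin c → R)) →ₗ[R] B :=
    LinearMap.coprod (LinearMap.ker g).subtype h
  have hF : ∀ x y, F (x, y) = (x : B) + h y := fun x y => rfl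
  have hFs : Function.Surjective F := by
    intro b
    obtain ⟨y, hy⟩ := hf (g b)
    have hb : b - h y ∈ LinearMap.ker g := by
      rw [LinearMap.mem_ker, map_sub, hh', hy, sub_self]
    refine ⟨(⟨b - h y, hb⟩, y), ?_⟩
    rw [hF]
    exact sub_add_cancel _ _
  have hkF : FP R m (LinearMap.ker F) := by
    refine FP.of_equiv (M := LinearMap.ker f) ?_ hk
    have hneg : ∀ y : LinearMap.ker f, -(h y) ∈ LinearMap.ker g := by
      rintro ⟨y, hy⟩
      rw [LinearMap.mem_ker, map_neg, hh', LinearMap.mem_ker.1 hy, neg_zero]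
    refine LinearEquiv.ofBijective
      (LinearMap.codRestrict (LinearMap.ker F)
        (LinearMap.prod (LinearMap.codRestrict (LinearMap.ker g)
          (-(h.comp (LinearMap.ker f).subtype)) hneg) (LinearMap.ker f).subtype) ?_) ⟨?_, ?_⟩
    · rintro ⟨y, hy⟩
      rw [LinearMap.mem_ker]
      change -(h y) + h y = 0
      exact neg_add_cancel _
    · rintro ⟨x, hx⟩ ⟨x', hx'⟩ hxx
      have h1 := congrArg (fun z : LinearMap.ker F => z.1.2) hxx
      exact Subtype.ext h1
    · rintro ⟨⟨⟨x, hx⟩, y⟩, hz⟩
      have hz' : x + h y = 0 := hz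
      have hy : f y = 0 := by
        have := congrArg g hz'
        rw [map_add, hh', map_zero, LinearMap.mem_ker.1 hx, zero_add] at this
        exact this
      refine ⟨⟨y, hy⟩, ?_⟩
      apply Subtype.ext
      refine Prod.ext (Subtype.ext ?_) rfl
      change -(h y) = x
      exact (eq_neg_of_add_eq_zero_left hz').symm
  have hprod : FP R m ((LinearMap.ker g) × (Fin c → R)) := FP.ext F hFs hkF hB
  cases m with
  | zero =>
    have h' : Module.Finite R ((LinearMap.ker g) × (Fin c → R)) := hprod
    exact Module.Finite.of_surjective (LinearMap.fst R (LinearMap.ker g) (Fin c → R))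
      Prod.fst_surjective
  | succ m =>
    refine FP.quot (LinearMap.fst R (LinearMap.ker g) (Fin c → R)) Prod.fst_surjective ?_ hprod
    refine FP.of_equiv (M := (Fin c → R)) ?_ (FP.fin_free m c)
    refine LinearEquiv.ofBijective (LinearMap.codRestrict _
      (LinearMap.inr R (LinearMap.ker g) (Fin c → R)) ?_) ⟨?_, ?_⟩
    · intro y
      rfl
    · intro y y' hyy
      exact congrArg (fun z : LinearMap.ker (LinearMap.fst R (LinearMap.ker g) (Fin c → R)) =>
        z.1.2) hyy
    · rintro ⟨⟨x, y⟩, hz⟩
      have hx : x = 0 := hz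
      subst hx
      exact ⟨y, rfl⟩

end Pool.Agent.Helper57K9
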