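import Pool.Agent.Helper57K9.FPm

/-!
# Powers, restriction of scalars, and resolutions by explicit free modules
-/

set_option autoImplicit false

namespace Pool.Agent.Helper57K9

variable {R : Type} [Ring R]

theorem FP.prod {m : ℕ} {A B : Type} [AddCommGroup A] [Module R A] [AddCommGroup B]
    [Module R B] (hA : FP R m A) (hB : FP R m B) : FP R m (A × B) := by
  refine FP.ext (LinearMap.snd R A B) Prod.snd_surjective ?_ hB
  refine FP.of_equiv (M := A) ?_ hA
  refine LinearEquiv.ofBijective (LinearMap.codRestrict _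
      (LinearMap.inl R A B) ?_) ⟨?_, ?_⟩
  · intro y
    rfl
  · intro y y' hyy
    exact congrArg (fun z : LinearMap.ker (LinearMap.snd R A B) => z.1.1) hyy
  · rintro ⟨⟨x, y⟩, hz⟩
    have hx : y = 0 := hz
    subst hx
    exact ⟨x, rfl⟩

theorem FP.fin_pi {m : ℕ} {M : Type} [AddCommGroup M] [Module R M] (h : FP R m M) (r : ℕ) :
    FP R m (Fin r → M) := by
  induction r with
  | zero => exact FP.of_subsingleton m _
  | succ r ih =>
    exact FP.of_equiv (Fin.consLinearEquiv R (fun _ : Fin (r + 1) => M)) (FP.prod h ih)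

theorem FP.pi {m : ℕ} {M : Type} [AddCommGroup M] [Module R M] (h : FP R m M) (J : Type)
    [Fintype J] : FP R m (J → M) :=
  FP.of_equiv (LinearEquiv.funCongrLeft R M (Fintype.equivFin J)) (FP.fin_pi h _)

/-- restriction of scalars -/
theorem FP.restrict {S : Type} [Ring S] [Module R S] [IsScalarTower R S S] {n : ℕ}
    (hS : FP R n S) : ∀ (m : ℕ), m ≤ n → ∀ (M : Type) [AddCommGroup M] [Module S M] [Module R M]
    [IsScalarTower R S M], FP S m M → FP R m M := by
  intro m
  induction m with
  | zero =>
    intro _ M _ _ _ _ h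
    have h1 : Module.Finite R S := FP.finite hS
    have h2 : Module.Finite S M := h
    change Module.Finite R M
    exact Module.Finite.trans S M
  | succ m ih =>
    intro hm M _ _ _ _ h
    obtain ⟨k, f, hf, hk⟩ := h
    have h1 : FP R m (LinearMap.ker f) := ih (by omega) _ hk
    have h2 : FP R (m + 1) (Fin k → S) := FP.fin_pi (FP.mono hm hS) k
    refine FP.quot (f.restrictScalars R) hf ?_ h2
    refine FP.of_equiv (M := LinearMap.ker f) ?_ h1
    exact LinearEquiv.ofBijective
      (M := LinearMap.ker f) (M₂ := LinearMap.ker (f.restrictScalars R))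
      { toFun := fun x => ⟨x.1, x.2⟩
        map_add' := fun _ _ => rfl
        map_smul' := fun _ _ => rfl } ⟨fun x y h => by
          apply Subtype.ext
          exact congrArg (fun z : LinearMap.ker (f.restrictScalars R) => z.1) h,
        fun x => ⟨⟨x.1, x.2⟩, rfl⟩⟩

/-- explicit resolutions from `FP` -/
theorem FP.exists_res : ∀ {m : ℕ} {M : Type} [AddCommGroup M] [Module R M], FP R m M →
    ∃ (k : ℕ → ℕ) (f : (Fin (k 0) → R) →ₗ[R] M)
      (d : ∀ i : ℕ, (Fin (k (i+1)) → R) →ₗ[R] (Fin (k i) → R)),
      Function.Surjective f ∧ (0 < m → LinearMap.range (d 0) = LinearMap.ker f) ∧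
      ∀ j, j + 2 ≤ m → LinearMap.range (d (j+1)) = LinearMap.ker (d j) := by
  intro m
  induction m with
  | zero =>
    intro M _ _ h
    have h' : Module.Finite R M := h
    obtain ⟨k, f, hf⟩ := Module.Finite.exists_fin' R M
    exact ⟨fun _ => k, f, fun _ => 0, hf, fun h => absurd h (lt_irrefl _),
      fun j hj => absurd hj (by omega)⟩
  | succ m ih =>
    intro M _ _ h
    obtain ⟨k0, f, hf, hk⟩ := h
    obtain ⟨k, f', d, hf', h0, hd⟩ := ih hk
    refine ⟨fun i => Nat.casesOn i k0 k, f,
      fun i => match i with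
        | 0 => (LinearMap.ker f).subtype.comp f'
        | i + 1 => d i, hf, ?_, ?_⟩
    · intro _
      change LinearMap.range ((LinearMap.ker f).subtype.comp f') = LinearMap.ker f
      rw [LinearMap.range_comp, LinearMap.range_eq_top.2 hf', Submodule.map_top,
        Submodule.range_subtype]
    · intro j hj
      cases j with
      | zero =>
        change LinearMap.range (d 0) = LinearMap.ker ((LinearMap.ker f).subtype.comp f')
        rw [h0 (by omega), LinearMap.ker_comp, Submodule.ker_subtype, Submodule.comap_bot]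
      | succ j =>
        exact hd j (by omega)

/-- `FP` from explicit resolutions -/
theorem FP.of_res : ∀ {m : ℕ} {M : Type} [AddCommGroup M] [Module R M]
    (k : ℕ → ℕ) (f : (Fin (k 0) → R) →ₗ[R] M)
    (d : ∀ i : ℕ, (Fin (k (i+1)) → R) →ₗ[R] (Fin (k i) → R)),
    Function.Surjective f → (0 < m → LinearMap.range (d 0) = LinearMap.ker f) →
    (∀ j, j + 2 ≤ m → LinearMap.range (d (j+1)) = LinearMap.ker (d j)) → FP R m M := by
  intro m
  induction m with
  | zero =>
    intro M _ _ k f d hf _ _
    exact Module.Finite.of_surjective f hf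
  | succ m ih =>
    intro M _ _ k f d hf h0 hd
    refine ⟨k 0, f, hf, ?_⟩
    have hr : ∀ x, d 0 x ∈ LinearMap.ker f := by
      intro x
      rw [← h0 (Nat.succ_pos m)]
      exact LinearMap.mem_range_self _ _
    refine ih (fun i => k (i + 1)) (LinearMap.codRestrict _ (d 0) hr) (fun i => d (i + 1))
      ?_ ?_ ?_
    · rintro ⟨x, hx⟩
      rw [← h0 (Nat.succ_pos m)] at hx
      obtain ⟨y, hy⟩ := hx
      exact ⟨y, Subtype.ext hy⟩
    · intro hm
      rw [LinearMap.ker_codRestrict]
      exact hd 0 (by omega)
    · intro j hj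
      exact hd (j + 1) (by omega)

end Pool.Agent.Helper57K9
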