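import Pool.Agent.Helper57K9.Two

/-!
# The main theorem in homological form, and conversions
-/

set_option autoImplicit false

namespace Pool.Agent.Helper57K9

theorem main_FP {N P G H Q : Type} [Group N] [Group P] [Group G] [Group H] [Group Q]
    {ι : N →* P} {β : P →* H} (hE : IsExt ι β) {α : P →* G} (hα : Function.Surjective α)
    {π₁ : G →* Q} (hG : IsExt (α.comp ι) π₁) {π₂ : H →* Q} (hπ₂ : Function.Surjective π₂)
    (hc : ∀ p, π₁ (α p) = π₂ (β p)) (hcent : ∀ t, α t = 1 → ∀ n, t * ι n = ι n * t)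
    (hPfg : Group.FG P) (hGp : FPr G) (hHfg : Group.FG H) (m : ℕ) (B : PRes N (m + 1))
    (h1 : FP (ZG G) (m + 2) (TZ G)) (h2 : FP (ZG H) (m + 2) (TZ H))
    (h3 : FP (ZG Q) (m + 3) (TZ Q)) : FP (ZG P) (m + 2) (TZ P) := by
  classical
  obtain ⟨S, hS⟩ := (Monoid.fg_of_group_fg (G := H)).fg_top
  have hγ : Submonoid.closure (Set.range (Subtype.val : S → H)) = ⊤ := by
    rw [← hS]
    congr 1
    exact Subtype.range_coe
  choose p hp using fun j : S => hE.surj j.1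
  choose ρ hρ hg using fun j : S => exists_rho B hE m rfl (p j)
  have hρ' : ∀ j : S, IsChain B ι β m (j.1) (ρ j) := by
    intro j
    rw [← hp j]
    exact hρ j
  obtain ⟨T, hT, hTk⟩ := exists_normalClosure_eq_ker hPfg hGp α hα
  have hTc : ∀ t ∈ T, ∀ n, t * ι n = ι n * t := by
    intro t ht
    apply hcent
    rw [← MonoidHom.mem_ker, hTk]
    exact Subgroup.subset_normalClosure ht
  obtain ⟨W, hW1, hW2, hW3⟩ := exists_fg_normalClosure hE rfl hγ p hp hρ' hg T hT hTc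
  have hγ2 : Submonoid.closure (Set.range (fun j : S => π₂ j.1)) = ⊤ := by
    have h4 : Set.range (fun j : S => π₂ j.1) = π₂ '' (Set.range (Subtype.val : S → H)) := by
      rw [← Set.range_comp]
      rfl
    rw [h4, ← MonoidHom.map_mclosure, hγ, ← MonoidHom.mrange_eq_map]
    exact MonoidHom.mrange_eq_top.2 hπ₂
  have hA := partA hG m rfl (fun j : S => π₂ j.1) hγ2 (fun j i => (ρ j i).map (mp α))
    (fun j => isChain_map hα hc (hρ' j)) h1 h3
  refine partB hE m rfl (Subtype.val : S → H) hγ ρ hρ' h2 ?_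
  refine link hE hα hG hρ' ⟨W, hW1, hW2, ?_⟩ hA
  intro t ht
  apply hW3
  rw [← hTk]
  exact ht

/-- the homological half of the frozen definition of type `F_m` -/
def HF (m : ℕ) (G : Type) [Group G] : Prop :=
  ∃ (k : ℕ → ℕ) (ε : MonoidAlgebra ℤ G →+* ℤ)
    (d : ∀ i : ℕ, (Fin (k (i+1)) → MonoidAlgebra ℤ G) →ₗ[MonoidAlgebra ℤ G]
      (Fin (k i) → MonoidAlgebra ℤ G)),
    (∀ g : G, ε (MonoidAlgebra.of ℤ G g) = 1) ∧
    (∃ x : Fin (k 0) → MonoidAlgebra ℤ G, ∑ j, ε (x j) = 1) ∧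
    (0 < m → ∀ x : Fin (k 0) → MonoidAlgebra ℤ G,
      (∑ j, ε (x j) = 0 ↔ x ∈ LinearMap.range (d 0))) ∧
    (∀ j : ℕ, j + 2 ≤ m → LinearMap.range (d (j+1)) = LinearMap.ker (d j))

theorem HF.fp {m : ℕ} {G : Type} [Group G] (h : HF m G) : FP (ZG G) m (TZ G) := by
  obtain ⟨k, ε, d, hε, hne, h0, hd⟩ := h
  obtain rfl := ag_unique ε hε
  refine FP.of_res k (augv G (Fin (k 0))) d (augv_surjective hne) ?_ hd
  intro hm
  ext x
  rw [mem_ker_augv]
  exact (h0 hm x).symm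

theorem HF.of_fp {m : ℕ} {G : Type} [Group G] (h : FP (ZG G) (m + 1) (TZ G)) :
    HF (m + 1) G := by
  have hne : ∃ x : Fin 1 → ZG G, ∑ j, ag (x j) = 1 := ⟨fun _ => 1, by simp⟩
  have h1 : FP (ZG G) m (LinearMap.ker (augv G (Fin 1))) :=
    FP.ker (augv G (Fin 1)) (augv_surjective hne) (FP.free _ _) h
  obtain ⟨k, f, d, hf, h0, hd⟩ := h1.exists_res
  refine ⟨fun i => Nat.casesOn i 1 k, ag,
      fun i => match i with
        | 0 => (LinearMap.ker (augv G (Fin 1))).subtype.comp f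
        | i + 1 => d i, ag_og, hne, ?_, ?_⟩
  · intro _ x
    change (∑ j : Fin 1, ag (x j)) = 0 ↔
      x ∈ LinearMap.range ((LinearMap.ker (augv G (Fin 1))).subtype.comp f)
    rw [LinearMap.range_comp, LinearMap.range_eq_top.2 hf, Submodule.map_top,
        Submodule.range_subtype]
    exact Iff.rfl
  · intro j hj
    cases j with
    | zero =>
      change LinearMap.range (d 0) =
        LinearMap.ker ((LinearMap.ker (augv G (Fin 1))).subtype.comp f)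
      rw [h0 (by omega), LinearMap.ker_comp, Submodule.ker_subtype, Submodule.comap_bot]
    | succ j =>
      exact hd j (by omega)

theorem vecMul_toMatrix {R : Type} [Ring R] {a b : ℕ} (d : (Fin a → R) →ₗ[R] (Fin b → R))
    (x : Fin a → R) :
    Matrix.vecMul x (Matrix.of (fun i j => d (Pi.single i 1) j)) = d x := by
  rw [Matrix.vecMul_eq_sum]
  conv_rhs => rw [← Finset.univ_sum_single x]
  rw [map_sum]
  refine Finset.sum_congr rfl (fun i _ => ?_)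
  have : (Pi.single i (x i) : Fin a → R) = x i • (Pi.single i (1 : R) : Fin a → R) := by
    rw [← Pi.single_smul, smul_eq_mul, mul_one]
  rw [this, map_smul]
  rfl

theorem HF.exists_pres {m : ℕ} {G : Type} [Group G] (hm : 0 < m) (h : HF m G) :
    Nonempty (PRes G m) := by
  obtain ⟨k, ε, d, hε, hne, h0, hd⟩ := h
  obtain rfl := ag_unique ε hε
  refine ⟨⟨k, fun i => Matrix.of (fun a b => d i (Pi.single a 1) b), hne, ?_, ?_⟩⟩
  · intro x
    rw [h0 hm x]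
    constructor
    · rintro ⟨y, rfl⟩
      exact ⟨y, vecMul_toMatrix _ _⟩
    · rintro ⟨y, rfl⟩
      exact ⟨y, (vecMul_toMatrix _ _).symm⟩
  · intro i hi x
    rw [vecMul_toMatrix, ← LinearMap.mem_ker, ← hd i hi]
    constructor
    · rintro ⟨y, rfl⟩
      exact ⟨y, vecMul_toMatrix _ _⟩
    · rintro ⟨y, rfl⟩
      exact ⟨y, (vecMul_toMatrix _ _).symm⟩

section fibre

variable {Γ₁ Γ₂ Q : Type} [Group Γ₁] [Group Γ₂] [Group Q] (π₁ : Γ₁ →* Q) (π₂ : Γ₂ →* Q)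

/-- the fibre product -/
abbrev FibP : Subgroup (Γ₁ × Γ₂) :=
  MonoidHom.eqLocus (π₁.comp (MonoidHom.fst Γ₁ Γ₂)) (π₂.comp (MonoidHom.snd Γ₁ Γ₂))

theorem mem_FibP (x : Γ₁ × Γ₂) : x ∈ FibP π₁ π₂ ↔ π₁ x.1 = π₂ x.2 := Iff.rfl

/-- the inclusion of the first kernel -/
def iotaP : π₁.ker →* FibP π₁ π₂ :=
  ((MonoidHom.inl Γ₁ Γ₂).comp π₁.ker.subtype).codRestrict (FibP π₁ π₂) (by
    rintro ⟨x, hx⟩
    rw [mem_FibP]
    change π₁ x = π₂ 1
    rw [map_one]
    exact hx)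

/-- the first projection -/
def alphaP : FibP π₁ π₂ →* Γ₁ := (MonoidHom.fst Γ₁ Γ₂).comp (FibP π₁ π₂).subtype

/-- the second projection -/
def betaP : FibP π₁ π₂ →* Γ₂ := (MonoidHom.snd Γ₁ Γ₂).comp (FibP π₁ π₂).subtype

theorem alphaP_surjective (h₂ : Function.Surjective π₂) : Function.Surjective (alphaP π₁ π₂) := by
  intro a
  obtain ⟨b, hb⟩ := h₂ (π₁ a)
  exact ⟨⟨(a, b), hb.symm⟩, rfl⟩

theorem isExt_beta (h₁ : Function.Surjective π₁) : IsExt (iotaP π₁ π₂) (betaP π₁ π₂) where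
  inj := by
    intro x y h
    have h1 := congrArg (fun z : FibP π₁ π₂ => z.1.1) h
    exact Subtype.ext h1
  surj := by
    intro b
    obtain ⟨a, ha⟩ := h₁ (π₂ b)
    exact ⟨⟨(a, b), ha⟩, rfl⟩
  ex := by
    rintro ⟨⟨a, b⟩, hab⟩
    constructor
    · intro h
      have hb : b = 1 := h
      subst hb
      have hab' : π₁ a = π₂ 1 := hab
      rw [map_one] at hab'
      exact ⟨⟨a, hab'⟩, rfl⟩
    · rintro ⟨⟨x, hx⟩, h⟩
      exact (congrArg (fun z : FibP π₁ π₂ => z.1.2) h).symm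

theorem isExt_alpha (h₁ : Function.Surjective π₁) :
    IsExt ((alphaP π₁ π₂).comp (iotaP π₁ π₂)) π₁ where
  inj := by
    intro x y h
    exact Subtype.ext h
  surj := h₁
  ex := by
    intro g
    constructor
    · intro h
      exact ⟨⟨g, h⟩, rfl⟩
    · rintro ⟨⟨x, hx⟩, rfl⟩
      exact hx

theorem alphaP_central (t : FibP π₁ π₂) (ht : alphaP π₁ π₂ t = 1) (x : π₁.ker) :
    t * iotaP π₁ π₂ x = iotaP π₁ π₂ x * t := by
  obtain ⟨⟨a, b⟩, hab⟩ := t
  have ha : a = 1 := ht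
  subst ha
  apply Subtype.ext
  apply Prod.ext
  · change 1 * x.1 = x.1 * 1
    rw [one_mul, mul_one]
  · change b * 1 = 1 * b
    rw [one_mul, mul_one]

end fibre

theorem main_fibre {Γ₁ Γ₂ Q : Type} [Group Γ₁] [Group Γ₂] [Group Q] (π₁ : Γ₁ →* Q)
    (π₂ : Γ₂ →* Q) (h₁ : Function.Surjective π₁) (h₂ : Function.Surjective π₂) (n : ℕ)
    (hn : 1 ≤ n) (hN : FPr π₁.ker) (hNn : HF n π₁.ker) (hG : FPr Γ₁) (hGn : HF (n + 1) Γ₁)
    (hH : FPr Γ₂) (hHn : HF (n + 1) Γ₂) (hQn : HF (n + 2) Q) :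
    FPr (FibP π₁ π₂) ∧ HF (n + 1) (FibP π₁ π₂) := by
  have hP : FPr (FibP π₁ π₂) := fpr_of_ext (isExt_beta π₁ π₂ h₁) hN hH
  refine ⟨hP, ?_⟩
  obtain ⟨m, rfl⟩ : ∃ m, n = m + 1 := ⟨n - 1, by omega⟩
  obtain ⟨B⟩ := hNn.exists_pres (Nat.succ_pos m)
  apply HF.of_fp
  exact main_FP (isExt_beta π₁ π₂ h₁) (alphaP_surjective π₁ π₂ h₂) (isExt_alpha π₁ π₂ h₁) h₂
    (fun p => p.2) (alphaP_central π₁ π₂) hP.fg hG hH.fg m B hGn.fp hHn.fp hQn.fp

end Pool.Agent.Helper57K9
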