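import Pool.Agent.Helper57K9.Ind

/-!
# Finite presentations and extensions
-/

set_option autoImplicit false

namespace Pool.Agent.Helper57K9

/-- finite presentability -/
def FPr (G : Type) [Group G] : Prop :=
  ∃ (r : ℕ) (f : FreeGroup (Fin r) →* G) (S : Finset (FreeGroup (Fin r))),
    Function.Surjective f ∧ f.ker = Subgroup.normalClosure (↑S : Set (FreeGroup (Fin r)))

theorem FPr.fg {G : Type} [Group G] (h : FPr G) : Group.FG G := by
  obtain ⟨r, f, S, hf, -⟩ := h
  exact Group.fg_of_surjective hf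

/-- the kernel of a surjection from a finitely generated group onto a finitely presented group
is normally finitely generated -/
theorem exists_normalClosure_eq_ker {G H : Type} [Group G] [Group H] (hG : Group.FG G)
    (hH : FPr H) (f : G →* H) (hf : Function.Surjective f) :
    ∃ T : Set G, T.Finite ∧ f.ker = Subgroup.normalClosure T := by
  obtain ⟨r, p, S, hp, hk⟩ := hH
  obtain ⟨A, hA, hAf⟩ := Group.fg_iff.1 hG
  choose g hg using fun i : Fin r => hf (p (FreeGroup.of i))
  let lam : FreeGroup (Fin r) →* G := FreeGroup.lift g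
  have hlam : ∀ w, f (lam w) = p w := by
    have : f.comp lam = p := by
      apply FreeGroup.ext_hom
      intro i
      rw [MonoidHom.comp_apply, FreeGroup.lift_apply_of, hg]
    intro w
    rw [← this]
    rfl
  choose w hw using fun a : G => hp (f a)
  let T : Set G := (lam '' (S : Set (FreeGroup (Fin r)))) ∪ ((fun a => a⁻¹ * lam (w a)) '' A)
  have hTf : T.Finite := (S.finite_toSet.image _).union (hAf.image _)
  refine ⟨T, hTf, ?_⟩
  apply le_antisymm
  · -- the subgroup generated by `lam` and `T` is everything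
    have htop : lam.range ⊔ Subgroup.normalClosure T = ⊤ := by
      rw [eq_top_iff, ← hA, Subgroup.closure_le]
      intro a ha
      have h1 : a⁻¹ * lam (w a) ∈ lam.range ⊔ Subgroup.normalClosure T :=
        (le_sup_right : Subgroup.normalClosure T ≤ _)
          (Subgroup.subset_normalClosure (Or.inr ⟨a, ha, rfl⟩))
      have h2 : lam (w a) ∈ lam.range ⊔ Subgroup.normalClosure T :=
        (le_sup_left : lam.range ≤ _) ⟨w a, rfl⟩
      have h3 : a = lam (w a) * (a⁻¹ * lam (w a))⁻¹ := by group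
      rw [SetLike.mem_coe, h3]
      exact Subgroup.mul_mem _ h2 (Subgroup.inv_mem _ h1)
    have hT1 : Subgroup.normalClosure T ≤ f.ker := by
      apply Subgroup.normalClosure_le_normal
      rintro x (⟨s, hs, rfl⟩ | ⟨a, ha, rfl⟩)
      · rw [SetLike.mem_coe, MonoidHom.mem_ker, hlam, ← MonoidHom.mem_ker, hk]
        exact Subgroup.subset_normalClosure hs
      · rw [SetLike.mem_coe, MonoidHom.mem_ker, map_mul, map_inv, hlam, hw, inv_mul_cancel]
    have hS : Subgroup.normalClosure (S : Set (FreeGroup (Fin r))) ≤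
        (Subgroup.normalClosure T).comap lam := by
      apply Subgroup.normalClosure_le_normal
      intro s hs
      exact Subgroup.subset_normalClosure (Or.inl ⟨s, hs, rfl⟩)
    intro x hx
    have hx' : x ∈ lam.range ⊔ Subgroup.normalClosure T := by
      rw [htop]
      exact Subgroup.mem_top x
    rw [Subgroup.mem_sup_of_normal_right] at hx'
    obtain ⟨_, ⟨v, rfl⟩, z, hz, rfl⟩ := hx'
    refine Subgroup.mul_mem _ ?_ hz
    have h1 : f (lam v) = 1 := by
      have h2 : f (lam v * z) = 1 := hx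
      have h3 : f z = 1 := hT1 hz
      rwa [map_mul, h3, mul_one] at h2
    rw [hlam, ← MonoidHom.mem_ker, hk] at h1
    exact hS h1
  · apply Subgroup.normalClosure_le_normal
    rintro x (⟨s, hs, rfl⟩ | ⟨a, ha, rfl⟩)
    · rw [SetLike.mem_coe, MonoidHom.mem_ker, hlam, ← MonoidHom.mem_ker, hk]
      exact Subgroup.subset_normalClosure hs
    · rw [SetLike.mem_coe, MonoidHom.mem_ker, map_mul, map_inv, hlam, hw, inv_mul_cancel]

theorem fg_of_ext {N G H : Type} [Group N] [Group G] [Group H] {ι : N →* G} {π : G →* H}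
    (hE : IsExt ι π) (hN : Group.FG N) (hH : Group.FG H) : Group.FG G := by
  obtain ⟨A, hA, hAf⟩ := Group.fg_iff.1 hN
  obtain ⟨B, hB, hBf⟩ := Group.fg_iff.1 hH
  obtain ⟨s, hs⟩ := hE.surj.hasRightInverse
  refine Group.fg_iff.2 ⟨ι '' A ∪ s '' B, ?_, (hAf.image _).union (hBf.image _)⟩
  rw [eq_top_iff]
  intro g _
  have h1 : π g ∈ (Subgroup.closure (s '' B)).map π := by
    rw [MonoidHom.map_closure]
    have : π '' (s '' B) = B := by
      rw [← Set.image_comp]
      have : π ∘ s = id := funext hs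
      rw [this, Set.image_id]
    rw [this, hB]
    exact Subgroup.mem_top _
  obtain ⟨c, hc, hcg⟩ := h1
  have h2 : ∃ n, g = c * ι n := hE.exists_mul hcg
  obtain ⟨n, rfl⟩ := h2
  have h3 : ι n ∈ (Subgroup.closure A).map ι := by
    rw [hA]
    exact ⟨n, Subgroup.mem_top _, rfl⟩
  rw [MonoidHom.map_closure] at h3
  exact Subgroup.mul_mem _ (Subgroup.closure_mono Set.subset_union_right hc)
    (Subgroup.closure_mono Set.subset_union_left h3)

theorem exists_freeGroup_hom {G : Type} [Group G] (hG : Group.FG G) :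
    ∃ (r : ℕ) (f : FreeGroup (Fin r) →* G), Function.Surjective f := by
  obtain ⟨α, hα, f0, hf0⟩ := Group.fg_iff_exists_freeGroup_hom_surjective_finite.1 hG
  obtain ⟨r, ⟨e⟩⟩ := Finite.exists_equiv_fin α
  exact ⟨r, f0.comp (FreeGroup.freeGroupCongr e).symm,
    hf0.comp (FreeGroup.freeGroupCongr e).symm.surjective⟩

theorem fpr_of_ext {N G H : Type} [Group N] [Group G] [Group H] {ι : N →* G} {π : G →* H}
    (hE : IsExt ι π) (hN : FPr N) (hH : FPr H) : FPr G := by
  classical
  have hG : Group.FG G := fg_of_ext hE hN.fg hH.fg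
  obtain ⟨r, f, hf⟩ := exists_freeGroup_hom hG
  obtain ⟨A, hAf, hA⟩ := exists_normalClosure_eq_ker inferInstance hH (π.comp f)
    (hE.surj.comp hf)
  obtain ⟨s, pN, R, hpN, hkN⟩ := hN
  choose x hx using fun i : Fin s => hf (ι (pN (FreeGroup.of i)))
  let lam : FreeGroup (Fin s) →* FreeGroup (Fin r) := FreeGroup.lift x
  have hlam : ∀ w, f (lam w) = ι (pN w) := by
    have : f.comp lam = ι.comp pN := by
      apply FreeGroup.ext_hom
      intro i
      rw [MonoidHom.comp_apply, FreeGroup.lift_apply_of, hx]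
      rfl
    intro w
    exact DFunLike.congr_fun this w
  have hM : ∀ v : FreeGroup (Fin r), π (f v) = 1 → ∃ w, f (lam w) = f v := by
    intro v hv
    obtain ⟨n, hn⟩ := (hE.ex _).1 hv
    obtain ⟨w, rfl⟩ := hpN n
    exact ⟨w, by rw [hlam, hn]⟩
  have hconj : ∀ v : FreeGroup (Fin r), ∀ i, ∃ w, f (lam w) = f (v * x i * v⁻¹) := by
    intro v i
    apply hM
    rw [map_mul, map_mul, map_mul, map_mul, hx, hE.pi_iota, mul_one, map_inv, map_inv,
      mul_inv_cancel]
  have hA' : ∀ a ∈ A, ∃ w, f (lam w) = f a := by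
    intro a ha
    apply hM
    have : a ∈ (π.comp f).ker := by
      rw [hA]
      exact Subgroup.subset_normalClosure ha
    exact this
  choose! wA hwA using hA'
  choose wc hwc using hconj
  let T : Set (FreeGroup (Fin r)) := (lam '' (R : Set (FreeGroup (Fin s)))) ∪
    ((fun a => a⁻¹ * lam (wA a)) '' A) ∪
    (Set.range (fun q : Fin r × Fin s => (FreeGroup.of q.1 * x q.2 * (FreeGroup.of q.1)⁻¹)⁻¹ *
      lam (wc (FreeGroup.of q.1) q.2))) ∪
    (Set.range (fun q : Fin r × Fin s => ((FreeGroup.of q.1)⁻¹ * x q.2 *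
      (FreeGroup.of q.1)⁻¹⁻¹)⁻¹ * lam (wc (FreeGroup.of q.1)⁻¹ q.2)))
  have hTf : T.Finite := (((R.finite_toSet.image _).union (hAf.image _)).union
    (Set.finite_range _)).union (Set.finite_range _)
  have hTker : T ⊆ f.ker := by
    rintro v (((⟨s, hs, rfl⟩ | ⟨a, ha, rfl⟩) | ⟨q, rfl⟩) | ⟨q, rfl⟩)
    · rw [SetLike.mem_coe, MonoidHom.mem_ker, hlam]
      have : s ∈ pN.ker := by
        rw [hkN]
        exact Subgroup.subset_normalClosure hs
      rw [MonoidHom.mem_ker.1 this, map_one]
    · rw [SetLike.mem_coe, MonoidHom.mem_ker, map_mul, map_inv, hwA a ha, inv_mul_cancel]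
    · rw [SetLike.mem_coe, MonoidHom.mem_ker, map_mul, map_inv, hwc, inv_mul_cancel]
    · rw [SetLike.mem_coe, MonoidHom.mem_ker, map_mul, map_inv, hwc, inv_mul_cancel]
  have hT1 : Subgroup.normalClosure T ≤ f.ker := Subgroup.normalClosure_le_normal hTker
  -- the subgroup `D` generated by the image of `lam` and the relators is normal
  let D : Subgroup (FreeGroup (Fin r)) := lam.range ⊔ Subgroup.normalClosure T
  have hxD : ∀ i, x i ∈ D := by
    intro i
    refine (le_sup_left : lam.range ≤ D) ⟨FreeGroup.of i, ?_⟩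
    exact FreeGroup.lift_apply_of
  have hKD : Subgroup.normalClosure T ≤ D := le_sup_right
  have hconjD : ∀ v : FreeGroup (Fin r), (∀ i, v * x i * v⁻¹ ∈ D) →
      ∀ d ∈ D, v * d * v⁻¹ ∈ D := by
    intro v hv
    have h1 : D ≤ D.comap (MulAut.conj v).toMonoidHom := by
      refine sup_le ?_ ?_
      · rintro _ ⟨w, rfl⟩
        have h2 : (lam.range : Subgroup _) ≤ D.comap (MulAut.conj v).toMonoidHom := by
          rw [FreeGroup.range_lift_eq_closure, Subgroup.closure_le]
          rintro _ ⟨i, rfl⟩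
          exact hv i
        exact h2 ⟨w, rfl⟩
      · intro k hk
        exact hKD ((Subgroup.normalClosure_normal (s := T)).conj_mem k hk v)
    intro d hd
    exact h1 hd
  have hof : ∀ j : Fin r, FreeGroup.of j ∈ Subgroup.normalizer (D : Set (FreeGroup (Fin r))) := by
    intro j
    have h1 : ∀ d ∈ D, FreeGroup.of j * d * (FreeGroup.of j)⁻¹ ∈ D := by
      apply hconjD
      intro i
      have h2 : (FreeGroup.of j * x i * (FreeGroup.of j)⁻¹)⁻¹ *
          lam (wc (FreeGroup.of j) i) ∈ D :=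
        hKD (Subgroup.subset_normalClosure (Or.inl (Or.inr ⟨(j, i), rfl⟩)))
      have h3 : lam (wc (FreeGroup.of j) i) ∈ D := (le_sup_left : lam.range ≤ D) ⟨_, rfl⟩
      have h4 := D.mul_mem h3 (D.inv_mem h2)
      convert h4 using 1
      group
    have h1' : ∀ d ∈ D, (FreeGroup.of j)⁻¹ * d * (FreeGroup.of j)⁻¹⁻¹ ∈ D := by
      apply hconjD
      intro i
      have h2 : ((FreeGroup.of j)⁻¹ * x i * (FreeGroup.of j)⁻¹⁻¹)⁻¹ *
          lam (wc (FreeGroup.of j)⁻¹ i) ∈ D :=
        hKD (Subgroup.subset_normalClosure (Or.inr ⟨(j, i), rfl⟩))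
      have h3 : lam (wc (FreeGroup.of j)⁻¹ i) ∈ D := (le_sup_left : lam.range ≤ D) ⟨_, rfl⟩
      have h4 := D.mul_mem h3 (D.inv_mem h2)
      convert h4 using 1
      group
    rw [Subgroup.mem_normalizer_iff]
    intro d
    constructor
    · exact h1 d
    · intro hd
      have := h1' _ hd
      convert this using 1
      group
  have hDn : D.Normal := by
    rw [← Subgroup.normalizer_eq_top_iff, eq_top_iff, ← FreeGroup.closure_range_of,
      Subgroup.closure_le]
    rintro _ ⟨j, rfl⟩
    exact hof j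
  have hAD : (π.comp f).ker ≤ D := by
    rw [hA]
    apply Subgroup.normalClosure_le_normal
    intro a ha
    have h2 : a⁻¹ * lam (wA a) ∈ D :=
      hKD (Subgroup.subset_normalClosure (Or.inl (Or.inl (Or.inr ⟨a, ha, rfl⟩))))
    have h3 : lam (wA a) ∈ D := (le_sup_left : lam.range ≤ D) ⟨_, rfl⟩
    have h4 := D.mul_mem h3 (D.inv_mem h2)
    have h5 : a = lam (wA a) * (a⁻¹ * lam (wA a))⁻¹ := by group
    rw [SetLike.mem_coe, h5]
    exact h4
  have hS : Subgroup.normalClosure (R : Set (FreeGroup (Fin s))) ≤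
      (Subgroup.normalClosure T).comap lam := by
    apply Subgroup.normalClosure_le_normal
    intro s hs
    exact Subgroup.subset_normalClosure (Or.inl (Or.inl (Or.inl ⟨s, hs, rfl⟩)))
  refine ⟨r, f, hTf.toFinset, hf, ?_⟩
  rw [Set.Finite.coe_toFinset]
  apply le_antisymm _ hT1
  intro v hv
  have hv1 : v ∈ D := by
    apply hAD
    rw [MonoidHom.mem_ker, MonoidHom.comp_apply, MonoidHom.mem_ker.1 hv, map_one]
  rw [Subgroup.mem_sup_of_normal_right] at hv1
  obtain ⟨_, ⟨w, rfl⟩, z, hz, rfl⟩ := hv1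
  refine Subgroup.mul_mem _ ?_ hz
  have h1 : f (lam w) = 1 := by
    have h2 : f (lam w * z) = 1 := hv
    have h3 : f z = 1 := hT1 hz
    rwa [map_mul, h3, mul_one] at h2
  rw [hlam] at h1
  have h2 : pN w = 1 := hE.inj (h1.trans (map_one ι).symm)
  rw [← MonoidHom.mem_ker, hkN] at h2
  exact hS h2

end Pool.Agent.Helper57K9
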