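import Pool.Agent.Helper57K9.AB

/-!
# Lifting chain maps
-/

set_option autoImplicit false

namespace Pool.Agent.Helper57K9

/-- a matrix whose rows are all in the row image of `B` is a left multiple of `B` -/
theorem exists_mul_of_rows {R : Type} [Ring R] {I J K : Type} [Fintype K]
    (A : Matrix I J R) (B : Matrix K J R) (h : ∀ i, ∃ y, Matrix.vecMul y B = A i) :
    ∃ Z : Matrix I K R, A = Z * B := by
  choose y hy using h
  refine ⟨Matrix.of y, ?_⟩
  funext i
  rw [Matrix.mul_apply_eq_vecMul]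
  exact (hy i).symm

section lift

variable {N : Type} [Group N] {n : ℕ} (P : PRes N n)

theorem PRes.mul_eq_zero (i : ℕ) (hi : i + 2 ≤ n) : P.M (i + 1) * P.M i = 0 := by
  classical
  refine Matrix.ext (fun a b => ?_)
  have h1 : Matrix.vecMul (Matrix.vecMul (Pi.single a 1) (P.M (i + 1))) (P.M i) = 0 :=
    (P.exs i hi _).2 ⟨_, rfl⟩
  rw [Matrix.vecMul_vecMul, Matrix.single_one_vecMul] at h1
  exact congrFun h1 b

theorem PRes.sum_ag_row (a : Fin (P.k 1)) : ∑ j, ag (P.M 0 a j) = 0 := by
  classical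
  rw [P.ex0]
  refine ⟨Pi.single a 1, ?_⟩
  rw [Matrix.single_one_vecMul]
  rfl

open Classical in
/-- recursively chosen lifts of the identity along a ring endomorphism -/
noncomputable def liftY (c : ZG N →+* ZG N) : ∀ i, Matrix (Fin (P.k i)) (Fin (P.k i)) (ZG N)
  | 0 => 1
  | i + 1 => if h : ∃ Z : Matrix (Fin (P.k (i + 1))) (Fin (P.k (i + 1))) (ZG N),
      (P.M i).map c * liftY c i = Z * P.M i then h.choose else 0

theorem liftY_spec (c : ZG N →+* ZG N) (hc : ∀ a, ag (c a) = ag a) (m : ℕ) (hm : n = m + 1)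
    (i : ℕ) (hi : i ≤ m) : (P.M i).map c * liftY P c i = liftY P c (i + 1) * P.M i := by
  have key : ∀ i, (∃ Z : Matrix (Fin (P.k (i + 1))) (Fin (P.k (i + 1))) (ZG N),
      (P.M i).map c * liftY P c i = Z * P.M i) →
      (P.M i).map c * liftY P c i = liftY P c (i + 1) * P.M i := by
    intro i h
    rw [liftY, dif_pos h]
    exact h.choose_spec
  induction i with
  | zero =>
    apply key
    apply exists_mul_of_rows
    intro a
    rw [← P.ex0]
    rw [liftY, Matrix.mul_one]
    change ∑ j, ag (c (P.M 0 a j)) = 0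
    rw [← P.sum_ag_row a]
    exact Finset.sum_congr rfl (fun j _ => hc _)
  | succ i ih =>
    apply key
    apply exists_mul_of_rows
    intro a
    rw [← P.exs i (by omega)]
    rw [← Matrix.mul_apply_eq_vecMul, Matrix.mul_assoc, ← ih (by omega), ← Matrix.mul_assoc,
      ← Matrix.map_mul, P.mul_eq_zero i (by omega)]
    have : (0 : Matrix (Fin (P.k (i + 1 + 1))) (Fin (P.k i)) (ZG N)).map c = 0 := by
      ext
      simp
    rw [this, Matrix.zero_mul]
    rfl

theorem exists_liftY (c : ZG N →+* ZG N) (hc : ∀ a, ag (c a) = ag a) (m : ℕ)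
    (hm : n = m + 1) : ∃ Y : ∀ i, Matrix (Fin (P.k i)) (Fin (P.k i)) (ZG N),
      Y 0 = 1 ∧ ∀ i, i ≤ m → (P.M i).map c * Y i = Y (i + 1) * P.M i :=
  ⟨liftY P c, rfl, liftY_spec P c hc m hm⟩

end lift

section rho

variable {N G H : Type} [Group N] [Group G] [Group H] {n : ℕ} (P : PRes N n)
  {ι : N →* G} {π : G →* H} (hE : IsExt ι π)

include hE in
theorem IsExt.exists_conj (p : G) (x : N) : ∃ y, ι y = p⁻¹ * ι x * p := by
  rw [← hE.ex, map_mul, map_mul, hE.pi_iota, map_inv, mul_one, inv_mul_cancel]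

/-- conjugation by `p⁻¹` on `N` -/
noncomputable def IsExt.cj (p : G) : N →* N where
  toFun x := (hE.exists_conj p x).choose
  map_one' := by
    apply hE.inj
    rw [(hE.exists_conj p 1).choose_spec, map_one, mul_one, inv_mul_cancel]
  map_mul' x y := by
    apply hE.inj
    rw [(hE.exists_conj p (x * y)).choose_spec, map_mul, map_mul,
      (hE.exists_conj p x).choose_spec, (hE.exists_conj p y).choose_spec]
    group

theorem IsExt.cj_spec (p : G) (x : N) : ι (hE.cj p x) = p⁻¹ * ι x * p :=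
  (hE.exists_conj p x).choose_spec

theorem IsExt.mp_mul_og (p : G) (a : ZG N) :
    mp ι a * og p = og p * mp ι (mp (hE.cj p) a) := by
  induction a using MonoidAlgebra.induction_linear with
  | zero => rw [map_zero, map_zero, map_zero, mul_zero, zero_mul]
  | add x y hx hy => rw [map_add, map_add, map_add, add_mul, mul_add, hx, hy]
  | single x r =>
    rw [mp_single, mp_single, mp_single, og_def, MonoidAlgebra.single_mul_single,
      MonoidAlgebra.single_mul_single, hE.cj_spec]
    congr 1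
    · group
    · rw [one_mul, mul_one]

/-- the matrix `p B` -/
noncomputable def SM (ι : N →* G) (p : G) {I J : Type} (B : Matrix I J (ZG N)) :
    Matrix I J (ZG G) := fun a b => og p * mp ι (B a b)

theorem SM_apply (ι : N →* G) (p : G) {I J : Type} (B : Matrix I J (ZG N)) (a : I) (b : J) :
    SM ι p B a b = og p * mp ι (B a b) := rfl

theorem map_mul_SM (p : G) {I J K : Type} [Fintype J] (A : Matrix I J (ZG N))
    (B : Matrix J K (ZG N)) : A.map (mp ι) * SM ι p B = SM ι p (A.map (mp (hE.cj p)) * B) := by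
  refine Matrix.ext (fun a b => ?_)
  rw [Matrix.mul_apply, SM_apply, Matrix.mul_apply, map_sum, Finset.mul_sum]
  refine Finset.sum_congr rfl (fun j _ => ?_)
  rw [Matrix.map_apply, SM_apply, ← mul_assoc, hE.mp_mul_og, mul_assoc, map_mul,
    Matrix.map_apply]

theorem SM_mul_map (p : G) {I J K : Type} [Fintype J] (B : Matrix I J (ZG N))
    (A : Matrix J K (ZG N)) : SM ι p B * A.map (mp ι) = SM ι p (B * A) := by
  refine Matrix.ext (fun a b => ?_)
  rw [Matrix.mul_apply, SM_apply, Matrix.mul_apply, map_sum, Finset.mul_sum]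
  refine Finset.sum_congr rfl (fun j _ => ?_)
  rw [Matrix.map_apply, SM_apply, mul_assoc, map_mul]

theorem vecMul_SM (p : G) {I J : Type} [Fintype I] (y : I → ZG N)
    (B : Matrix I J (ZG N)) : Matrix.vecMul (pv ι y) (SM ι p B) =
      og p • pv ι (Matrix.vecMul (fun a => mp (hE.cj p) (y a)) B) := by
  funext b
  rw [Matrix.vecMul_apply_eq_sum, Pi.smul_apply, pv_apply, Matrix.vecMul_apply_eq_sum,
    map_sum, Finset.smul_sum]
  refine Finset.sum_congr rfl (fun a _ => ?_)
  rw [SM_apply, pv_apply, ← mul_assoc, hE.mp_mul_og, map_mul, smul_eq_mul, mul_assoc]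

theorem vecMul_SM_one (p : G) {I : Type} [Fintype I] [DecidableEq I] (x : I → ZG G) (b : I) :
    Matrix.vecMul x (SM ι p 1) b = x b * og p := by
  rw [Matrix.vecMul_apply_eq_sum, Finset.sum_eq_single b]
  · rw [SM_apply, Matrix.one_apply_eq, map_one, mul_one]
  · intro a _ hab
    rw [SM_apply, Matrix.one_apply_ne hab, map_zero, mul_zero, mul_zero]
  · intro hb
    exact absurd (Finset.mem_univ b) hb

include hE in
theorem exists_rho (m : ℕ) (hm : n = m + 1) (p : G) :
    ∃ ρ : ∀ i, Matrix (Fin (P.k i)) (Fin (P.k i)) (ZG G), IsChain P ι π m (π p) ρ ∧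
      ∀ i, ∀ y : Fin (P.k i) → ZG N, ∃ z : Fin (P.k i) → ZG N,
        Matrix.vecMul (pv ι y) (ρ i) = og p • pv ι z := by
  obtain ⟨Y, hY0, hY⟩ := exists_liftY P (mp (hE.cj p)) (fun a => ag_mp _ a) m hm
  refine ⟨fun i => SM ι p (Y i), ⟨?_, ?_⟩, ?_⟩
  · intro x
    have h1 : (∑ b, mp π (Matrix.vecMul x (SM ι p (Y 0)) b) : ZG H) =
        (∑ b, mp π (x b)) * og (π p) := by
      rw [Finset.sum_mul]
      refine Finset.sum_congr rfl (fun b _ => ?_)
      rw [hY0, vecMul_SM_one, map_mul, mp_og]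
    exact h1
  · intro i hi
    rw [map_mul_SM hE, SM_mul_map, hY i hi]
  · intro i y
    exact ⟨_, vecMul_SM hE p y (Y i)⟩

end rho

section null

variable {R : Type} [Ring R] {A0 : Type} [AddCommGroup A0] [Module R A0]
  {F : ℕ → Type} [∀ i, AddCommGroup (F i)] [∀ i, Module R (F i)]
  [∀ i, Module.Free R (F i)]

theorem null_lemma (m : ℕ) (aF : F 0 →ₗ[R] A0) (dF : ∀ i, F (i + 1) →ₗ[R] F i)
    (hF : ∀ i, i ≤ m → LinearMap.range (dF i) = ZZ aF dF i)
    (f : ∀ i, F i →ₗ[R] F i) (h0 : ∀ x, aF (f 0 x) = 0)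
    (hf : ∀ i, i ≤ m → ∀ x, dF i (f (i + 1) x) = f i (dF i x)) (i : ℕ) (hi : i ≤ m + 1) :
    ∃ g : F i →ₗ[R] F i, (∀ x, g x ∈ ZZ aF dF i) ∧ ∀ x ∈ ZZ aF dF i, g x = f i x := by
  induction i with
  | zero => exact ⟨f 0, h0, fun _ _ => rfl⟩
  | succ i ih =>
    obtain ⟨g, hg1, hg2⟩ := ih (by omega)
    have hr := hF i (by omega)
    have hgr : ∀ x, g x ∈ LinearMap.range (dF i) := by
      intro x
      rw [hr]
      exact hg1 x
    obtain ⟨h, hh⟩ := Module.projective_lifting_property (dF i).rangeRestrict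
      (LinearMap.codRestrict _ g hgr) (dF i).surjective_rangeRestrict
    have hh' : ∀ x, dF i (h x) = g x := by
      intro x
      exact congrArg Subtype.val (LinearMap.congr_fun hh x)
    refine ⟨f (i + 1) - h.comp (dF i), ?_, ?_⟩
    · intro x
      change dF i (f (i + 1) x - h (dF i x)) = 0
      rw [map_sub, hh', hf i (by omega), hg2, sub_self]
      rw [← hr]
      exact LinearMap.mem_range_self _ _
    · intro x hx
      have hx' : dF i x = 0 := hx
      change f (i + 1) x - h (dF i x) = f (i + 1) x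
      rw [hx', map_zero, sub_zero]

end null

end Pool.Agent.Helper57K9
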