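import Pool.Agent.Helper57K9.Lift
import Pool.Agent.Helper57K9.Grp

/-!
# Comparing the syzygies over the fibre product and over the first factor
-/

set_option autoImplicit false

namespace Pool.Agent.Helper57K9

section one

variable {N P H : Type} [Group N] [Group P] [Group H] {n : ℕ} {B : PRes N n}
  {J : Type} [Fintype J] {ι : N →* P} {β : P →* H} (hE : IsExt ι β) {m : ℕ}
  {γ : J → H} {ρ : J → ∀ i, Matrix (Fin (B.k i)) (Fin (B.k i)) (ZG P)}

/-- the top syzygy of the induced complex -/
noncomputable abbrev LL (B : PRes N n) (ι : N →* P) (m : ℕ) :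
    Submodule (ZG P) (Fin (B.k (m + 1)) → ZG P) := LinearMap.ker (B.dI ι m)

/-- the submodule of all `∑ (y_j ρ_j - y_j)` with `y_j` in the top syzygy -/
noncomputable abbrev SG {J : Type} [Fintype J] (B : PRes N n) (ι : N →* P) (m : ℕ)
    (ρ : J → ∀ i, Matrix (Fin (B.k i)) (Fin (B.k i)) (ZG P)) :
    Submodule (ZG P) (Fin (B.k (m + 1)) → ZG P) :=
  Submodule.map (uu B ρ (m + 1)) (LinearMap.ker ((B.dI ι m).compLeft J))

theorem mem_LL (x : Fin (B.k (m + 1)) → ZG P) :
    x ∈ LL B ι m ↔ Matrix.vecMul x ((B.M m).map (mp ι)) = 0 := Iff.rfl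

theorem chain_mem {g : H} {R : ∀ i, Matrix (Fin (B.k i)) (Fin (B.k i)) (ZG P)}
    (hR : IsChain B ι β m g R) {x : Fin (B.k (m + 1)) → ZG P} (hx : x ∈ LL B ι m) :
    Matrix.vecMul x (R (m + 1)) ∈ LL B ι m := by
  rw [mem_LL] at hx ⊢
  rw [Matrix.vecMul_vecMul, ← hR.com m le_rfl, ← Matrix.vecMul_vecMul, hx, Matrix.zero_vecMul]

theorem SG_le (hρ : ∀ j, IsChain B ι β m (γ j) (ρ j)) : SG B ι m ρ ≤ LL B ι m := by
  rintro _ ⟨y, hy, rfl⟩
  rw [uu_apply]
  refine Submodule.sum_mem _ (fun j _ => ?_)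
  have hyj : y j ∈ LL B ι m := congrFun (LinearMap.mem_ker.1 hy) j
  exact Submodule.sub_mem _ (chain_mem (hρ j) hyj) hyj

theorem mem_SG (j : J) {x : Fin (B.k (m + 1)) → ZG P} (hx : x ∈ LL B ι m) :
    Matrix.vecMul x (ρ j (m + 1)) - x ∈ SG B ι m ρ := by
  classical
  refine ⟨Pi.single j x, ?_, ?_⟩
  · rw [SetLike.mem_coe, LinearMap.mem_ker]
    funext i
    change B.dI ι m ((Pi.single j x : J → Fin (B.k (m + 1)) → ZG P) i) = 0
    by_cases h : i = j
    · subst h
      rw [Pi.single_eq_same]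
      exact hx
    · rw [Pi.single_eq_of_ne h, map_zero]
  · rw [uu_apply, Finset.sum_eq_single j]
    · rw [Pi.single_eq_same]
    · intro i _ hi
      rw [Pi.single_eq_of_ne hi, Matrix.zero_vecMul, sub_zero]
    · intro hj
      exact absurd (Finset.mem_univ j) hj

theorem smul_mem_LL_iff (p : P) (x : Fin (B.k (m + 1)) → ZG P) :
    og p • x ∈ LL B ι m ↔ x ∈ LL B ι m := by
  constructor
  · intro h
    have := Submodule.smul_mem _ (og p⁻¹) h
    rwa [smul_smul, og_inv_mul, one_smul] at this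
  · intro h
    exact Submodule.smul_mem _ _ h

include hE in
/-- every translate of an element of the syzygy over `N` is congruent to an element of the
syzygy over `N` -/
theorem exists_congr (hγ : Submonoid.closure (Set.range γ) = ⊤) (p : J → P)
    (hp : ∀ j, β (p j) = γ j)
    (hρ : ∀ j, IsChain B ι β m (γ j) (ρ j))
    (hg : ∀ j, ∀ i, ∀ y : Fin (B.k i) → ZG N, ∃ z : Fin (B.k i) → ZG N,
        Matrix.vecMul (pv ι y) (ρ j i) = og (p j) • pv ι z)
    (q : P) (l : Fin (B.k (m + 1)) → ZG N) (hl : pv ι l ∈ LL B ι m) :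
    ∃ l' : Fin (B.k (m + 1)) → ZG N, pv ι l' ∈ LL B ι m ∧
      og q • pv ι l - pv ι l' ∈ SG B ι m ρ := by
  have key : ∀ g : H, ∀ q : P, β q * g = 1 → ∀ l : Fin (B.k (m + 1)) → ZG N,
      pv ι l ∈ LL B ι m → ∃ l' : Fin (B.k (m + 1)) → ZG N, pv ι l' ∈ LL B ι m ∧
        og q • pv ι l - pv ι l' ∈ SG B ι m ρ := by
    intro g
    have hh : g ∈ Submonoid.closure (Set.range γ) := by
      rw [hγ]
      exact Submonoid.mem_top g
    induction hh using Submonoid.closure_induction_left with
    | one =>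
      intro q hq l hl
      rw [mul_one] at hq
      obtain ⟨x, rfl⟩ := (hE.ex _).1 hq
      refine ⟨og x • l, ?_, ?_⟩
      · rw [pv_smul]
        exact Submodule.smul_mem _ _ hl
      · rw [pv_smul, mp_og, sub_self]
        exact Submodule.zero_mem _
    | mul_left x hx y hy ih =>
      obtain ⟨j, rfl⟩ := hx
      intro q hq l hl
      obtain ⟨z, hz⟩ := hg j (m + 1) l
      have h1 : Matrix.vecMul (og q • pv ι l) (ρ j (m + 1)) = og (q * p j) • pv ι z := by
        rw [Matrix.smul_vecMul, hz, smul_smul, og_mul]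
      have h2 : og q • pv ι l ∈ LL B ι m := Submodule.smul_mem _ _ hl
      have h3 := mem_SG (ρ := ρ) j h2
      have h4 : og (q * p j) • pv ι z ∈ LL B ι m := by
        rw [← h1]
        exact chain_mem (hρ j) h2
      rw [smul_mem_LL_iff] at h4
      obtain ⟨l', hl', h5⟩ := ih (q * p j) (by rw [map_mul, hp, mul_assoc, hq]) z h4
      refine ⟨l', hl', ?_⟩
      have h6 : og q • pv ι l - pv ι l' = (og (q * p j) • pv ι z - pv ι l') -
          (Matrix.vecMul (og q • pv ι l) (ρ j (m + 1)) - og q • pv ι l) := by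
        rw [h1]
        abel
      rw [h6]
      exact Submodule.sub_mem _ h5 h3
  exact key (β q)⁻¹ q (mul_inv_cancel _) l hl

include hE in
theorem LL_induction {K : AddSubgroup (Fin (B.k (m + 1)) → ZG P)}
    (hK : ∀ (q : P) (l : Fin (B.k (m + 1)) → ZG N), pv ι l ∈ LL B ι m → og q • pv ι l ∈ K)
    (x : Fin (B.k (m + 1)) → ZG P) (hx : x ∈ LL B ι m) : x ∈ K := by
  obtain ⟨s, hs⟩ := hE.surj.hasRightInverse
  obtain ⟨S, hS⟩ := hE.exists_decomp hs x
  rw [hS S (Finset.Subset.refl S)]
  refine AddSubgroup.sum_mem _ (fun h _ => hK _ _ ?_)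
  rw [mem_LL] at hx ⊢
  rw [← pv_vecMul, ← hE.cm_vecMul, hx, map_zero, map_zero]

/-- the composite chain maps -/
theorem exists_word (hγ : Submonoid.closure (Set.range γ) = ⊤)
    (hρ : ∀ j, IsChain B ι β m (γ j) (ρ j)) (g : H) :
    ∃ R : ∀ i, Matrix (Fin (B.k i)) (Fin (B.k i)) (ZG P), IsChain B ι β m g R ∧
      ∀ x ∈ LL B ι m, Matrix.vecMul x (R (m + 1)) - x ∈ SG B ι m ρ := by
  have hh : g ∈ Submonoid.closure (Set.range γ) := by
    rw [hγ]
    exact Submonoid.mem_top g
  induction hh using Submonoid.closure_induction with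
  | mem x hx =>
    obtain ⟨j, rfl⟩ := hx
    exact ⟨ρ j, hρ j, fun x hx => mem_SG j hx⟩
  | one =>
    refine ⟨fun i => 1, ⟨?_, ?_⟩, ?_⟩
    · intro x
      rw [Matrix.vecMul_one]
      change augi β _ x = (show ZG H from (show ZG H from augi β _ x) * og 1)
      rw [og_one]
      exact (mul_one (show ZG H from augi β _ x)).symm
    · intro i _
      rw [Matrix.mul_one, Matrix.one_mul]
    · intro x _
      rw [Matrix.vecMul_one, sub_self]
      exact Submodule.zero_mem _
  | mul x y _ _ hx hy =>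
    obtain ⟨R, hR, hR'⟩ := hx
    obtain ⟨R2, hR2, hR2'⟩ := hy
    refine ⟨fun i => R i * R2 i, ⟨?_, ?_⟩, ?_⟩
    · intro z
      rw [← Matrix.vecMul_vecMul, hR2.aug, hR.aug]
      change ((show ZG H from augi β _ z) * og x) * og y =
        (show ZG H from augi β _ z) * og (x * y)
      rw [og_mul, mul_assoc]
    · intro i hi
      rw [← Matrix.mul_assoc, hR.com i hi, Matrix.mul_assoc, hR2.com i hi, Matrix.mul_assoc]
    · intro z hz
      rw [← Matrix.vecMul_vecMul]
      have h1 := hR2' _ (chain_mem hR hz)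
      have h2 := Submodule.add_mem _ h1 (hR' z hz)
      rwa [sub_add_sub_cancel] at h2

theorem vecMul_diag {I : Type} [Fintype I] [DecidableEq I] (a : ZG P) (x : I → ZG P) :
    Matrix.vecMul x (Matrix.diagonal (fun _ : I => a)) = fun b => x b * a := by
  funext b
  rw [Matrix.vecMul_diagonal]

theorem central_comm {t : P} (ht : ∀ n, t * ι n = ι n * t) (a : ZG N) :
    og t * mp ι a = mp ι a * og t := by
  induction a using MonoidAlgebra.induction_linear with
  | zero => rw [map_zero, mul_zero, zero_mul]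
  | add x y hx hy => rw [map_add, mul_add, add_mul, hx, hy]
  | single x r =>
    rw [mp_single, og_def, MonoidAlgebra.single_mul_single, MonoidAlgebra.single_mul_single, ht,
      one_mul, mul_one]

theorem isChain_diag {t : P} (ht : ∀ n, t * ι n = ι n * t) :
    IsChain B ι β m (β t) (fun i => Matrix.diagonal (fun _ : Fin (B.k i) => og t)) := by
  refine ⟨?_, ?_⟩
  · intro x
    rw [vecMul_diag]
    change (∑ b, mp β (x b * og t) : ZG H) = (∑ b, mp β (x b)) * og (β t)
    rw [Finset.sum_mul]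
    refine Finset.sum_congr rfl (fun b _ => ?_)
    rw [map_mul, mp_og]
  · intro i _
    refine Matrix.ext (fun a b => ?_)
    rw [Matrix.mul_diagonal, Matrix.diagonal_mul, Matrix.map_apply, central_comm ht]

include hE in
/-- the action of an element commuting with `N`, modulo a finitely generated submodule -/
theorem exists_fg_central (hm : n = m + 1) (hγ : Submonoid.closure (Set.range γ) = ⊤) (p : J → P)
    (hp : ∀ j, β (p j) = γ j)
    (hρ : ∀ j, IsChain B ι β m (γ j) (ρ j))
    (hg : ∀ j, ∀ i, ∀ y : Fin (B.k i) → ZG N, ∃ z : Fin (B.k i) → ZG N,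
        Matrix.vecMul (pv ι y) (ρ j i) = og (p j) • pv ι z)
    (t : P) (ht : ∀ n, t * ι n = ι n * t) :
    ∃ W : Submodule (ZG P) (Fin (B.k (m + 1)) → ZG P), W.FG ∧ W ≤ LL B ι m ∧
      ∀ x ∈ LL B ι m, og t • x - x ∈ SG B ι m ρ ⊔ W := by
  obtain ⟨R, hR, hR'⟩ := exists_word hγ hρ (β t)
  have hD : IsChain B ι β m (β t) (fun i => Matrix.diagonal (fun _ : Fin (B.k i) => og t)) :=
    isChain_diag ht
  obtain ⟨g, hg1, hg2⟩ := null_lemma (F := fun i => Fin (B.k i) → ZG P) m
    (augi β (Fin (B.k 0))) (B.dI ι) (fun i hi => B.range_dI ι β hE m hm i hi)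
    (fun i => (R i - Matrix.diagonal (fun _ : Fin (B.k i) => og t)).vecMulLinear)
    (by
      intro x
      rw [Matrix.vecMulLinear_apply, Matrix.vecMul_sub, map_sub, hR.aug, hD.aug, sub_self])
    (by
      intro i hi x
      rw [Matrix.vecMulLinear_apply, Matrix.vecMulLinear_apply, PRes.dI_apply, PRes.dI_apply,
        Matrix.vecMul_vecMul, Matrix.vecMul_vecMul, Matrix.sub_mul, Matrix.mul_sub,
        hR.com i hi, hD.com i hi])
    (m + 1) le_rfl
  have hgW : LinearMap.range g ≤ LL B ι m := by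
    rintro _ ⟨x, rfl⟩
    exact hg1 x
  refine ⟨LinearMap.range g, ?_, hgW, ?_⟩
  · rw [← Submodule.map_top]
    exact Submodule.FG.map _ Module.Finite.fg_top
  · -- first for elements of the syzygy over `N`
    have h1 : ∀ l : Fin (B.k (m + 1)) → ZG N, pv ι l ∈ LL B ι m →
        og t • pv ι l - pv ι l ∈ SG B ι m ρ ⊔ LinearMap.range g := by
      intro l hl
      have e1 : og t • pv ι l = Matrix.vecMul (pv ι l)
          (Matrix.diagonal (fun _ : Fin (B.k (m + 1)) => og t)) := by
        rw [vecMul_diag]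
        funext b
        exact central_comm ht (l b)
      have e2 : g (pv ι l) = Matrix.vecMul (pv ι l) (R (m + 1)) - og t • pv ι l := by
        rw [hg2 _ hl, Matrix.vecMulLinear_apply, Matrix.vecMul_sub, e1]
      have e3 : og t • pv ι l - pv ι l = (Matrix.vecMul (pv ι l) (R (m + 1)) - pv ι l) -
          g (pv ι l) := by
        rw [e2]
        abel
      rw [e3]
      exact Submodule.sub_mem _ ((le_sup_left : SG B ι m ρ ≤ _) (hR' _ hl))
        ((le_sup_right : LinearMap.range g ≤ _) (LinearMap.mem_range_self _ _))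
    intro x hx
    let K : AddSubgroup (Fin (B.k (m + 1)) → ZG P) :=
      { carrier := {x | og t • x - x ∈ SG B ι m ρ ⊔ LinearMap.range g}
        add_mem' := by
          intro a b ha hb
          have ha' : og t • a - a ∈ SG B ι m ρ ⊔ LinearMap.range g := ha
          have hb' : og t • b - b ∈ SG B ι m ρ ⊔ LinearMap.range g := hb
          have h := Submodule.add_mem _ ha' hb'
          change og t • (a + b) - (a + b) ∈ SG B ι m ρ ⊔ LinearMap.range g
          convert h using 1
          rw [smul_add]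
          abel
        zero_mem' := by
          change og t • (0 : Fin (B.k (m + 1)) → ZG P) - 0 ∈ SG B ι m ρ ⊔ LinearMap.range g
          rw [smul_zero, sub_zero]
          exact Submodule.zero_mem _
        neg_mem' := by
          intro a ha
          have ha' : og t • a - a ∈ SG B ι m ρ ⊔ LinearMap.range g := ha
          have h := Submodule.neg_mem _ ha'
          change og t • (-a) - (-a) ∈ SG B ι m ρ ⊔ LinearMap.range g
          convert h using 1
          rw [smul_neg]
          abel }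
    refine LL_induction hE (K := K) ?_ x hx
    intro q l hl
    obtain ⟨l', hl', h2⟩ := exists_congr hE hγ p hp hρ hg q l hl
    change og t • (og q • pv ι l) - og q • pv ι l ∈ SG B ι m ρ ⊔ LinearMap.range g
    have h3 := h1 l' hl'
    have h4 : og q • pv ι l - pv ι l' ∈ SG B ι m ρ ⊔ LinearMap.range g :=
      (le_sup_left : SG B ι m ρ ≤ _) h2
    have h5 := Submodule.sub_mem _ (Submodule.add_mem _ h3 (Submodule.smul_mem _ (og t) h4)) h4
    convert h5 using 1
    rw [smul_sub]
    abel

include hE in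
/-- a uniform version for the normal closure of a finite set -/
theorem exists_fg_normalClosure (hm : n = m + 1) (hγ : Submonoid.closure (Set.range γ) = ⊤)
    (p : J → P) (hp : ∀ j, β (p j) = γ j)
    (hρ : ∀ j, IsChain B ι β m (γ j) (ρ j))
    (hg : ∀ j, ∀ i, ∀ y : Fin (B.k i) → ZG N, ∃ z : Fin (B.k i) → ZG N,
        Matrix.vecMul (pv ι y) (ρ j i) = og (p j) • pv ι z)
    (T : Set P) (hT : T.Finite) (hTc : ∀ t ∈ T, ∀ n, t * ι n = ι n * t) :
    ∃ W : Submodule (ZG P) (Fin (B.k (m + 1)) → ZG P), W.FG ∧ W ≤ LL B ι m ∧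
      ∀ t ∈ Subgroup.normalClosure T, ∀ x ∈ LL B ι m, og t • x - x ∈ SG B ι m ρ ⊔ W := by
  have h0 : ∀ t : T, ∃ W : Submodule (ZG P) (Fin (B.k (m + 1)) → ZG P), W.FG ∧ W ≤ LL B ι m ∧
      ∀ x ∈ LL B ι m, og t.1 • x - x ∈ SG B ι m ρ ⊔ W :=
    fun t => exists_fg_central hE hm hγ p hp hρ hg t.1 (hTc t.1 t.2)
  choose W hW1 hW2 hW3 using h0
  have hTf : Finite T := hT
  refine ⟨⨆ t, W t, Submodule.fg_iSup _ hW1, iSup_le hW2, ?_⟩
  have hKL : SG B ι m ρ ⊔ (⨆ t, W t) ≤ LL B ι m := sup_le (SG_le hρ) (iSup_le hW2)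
  let S0 : Subgroup P :=
    { carrier := {t | ∀ x ∈ LL B ι m, og t • x - x ∈ SG B ι m ρ ⊔ (⨆ t, W t)}
      mul_mem' := by
        intro a b ha hb x hx
        have h1 := ha _ (Submodule.smul_mem _ (og b) hx)
        have h2 := Submodule.add_mem _ h1 (hb x hx)
        convert h2 using 1
        rw [og_mul, ← smul_smul]
        abel
      one_mem' := by
        intro x _
        rw [og_one, one_smul, sub_self]
        exact Submodule.zero_mem _
      inv_mem' := by
        intro a ha x hx
        have h1 := ha _ (Submodule.smul_mem _ (og a⁻¹) hx)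
        have h2 := Submodule.neg_mem _ h1
        convert h2 using 1
        rw [smul_smul, og_mul_inv, one_smul]
        abel }
  have hS0 : S0.Normal := by
    refine ⟨?_⟩
    intro t ht q x hx
    have h1 := ht _ (Submodule.smul_mem _ (og q⁻¹) hx)
    have h2 := Submodule.smul_mem _ (og q) h1
    convert h2 using 1
    rw [smul_sub, smul_smul, smul_smul, smul_smul, og_mul_inv, one_smul, og_mul, og_mul,
      mul_assoc]
  have hle : Subgroup.normalClosure T ≤ S0 := by
    apply Subgroup.normalClosure_le_normal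
    intro t ht x hx
    have h1 := hW3 ⟨t, ht⟩ x hx
    exact (sup_le_sup_left (le_iSup W ⟨t, ht⟩) _) h1
  intro t ht
  exact hle ht

end one

end Pool.Agent.Helper57K9
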