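import Pool.Agent.Helper57K9.Aug

/-!
# Partial resolutions by matrices and their induced complexes
-/

set_option autoImplicit false

namespace Pool.Agent.Helper57K9

/-- a partial resolution `(ℤN)^{k_n} → ... → (ℤN)^{k_0} → ℤ → 0` by explicit matrices -/
structure PRes (N : Type) [Group N] (n : ℕ) where
  k : ℕ → ℕ
  M : ∀ i, Matrix (Fin (k (i+1))) (Fin (k i)) (ZG N)
  ne : ∃ x : Fin (k 0) → ZG N, ∑ j, ag (x j) = 1
  ex0 : ∀ x : Fin (k 0) → ZG N, ∑ j, ag (x j) = 0 ↔ ∃ y, Matrix.vecMul y (M 0) = x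
  exs : ∀ i, i + 2 ≤ n → ∀ x, Matrix.vecMul x (M i) = 0 ↔ ∃ y, Matrix.vecMul y (M (i+1)) = x

namespace IsExt

variable {N G H : Type} [Group N] [Group G] [Group H] {ι : N →* G} {π : G →* H}
  (hE : IsExt ι π)

theorem coeff_mp (g : G) (b : ZG G) : (mp π b).coeff (π g) = ag (hE.cmp g b) := by
  induction b using MonoidAlgebra.induction_linear with
  | zero => rw [map_zero, map_zero, map_zero]; rfl
  | add x y hx hy =>
    rw [map_add, map_add, map_add, MonoidAlgebra.coeff_add, Finsupp.add_apply, hx, hy]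
  | single x c =>
    rw [mp_single]
    by_cases h : π g = π x
    · obtain ⟨n, rfl⟩ := hE.exists_mul h
      rw [cmp_single, ag_single, h, MonoidAlgebra.coeff_single, Finsupp.single_eq_same]
    · rw [cmp_single_ne _ _ _ h, map_zero, MonoidAlgebra.coeff_single,
        Finsupp.single_eq_of_ne]
      exact h

include hE in
theorem mp_pi_iota (a : ZG N) : mp π (mp ι a) = ag a • (1 : ZG H) := by
  induction a using MonoidAlgebra.induction_linear with
  | zero => rw [map_zero, map_zero, map_zero, zero_smul]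
  | add x y hx hy => rw [map_add, map_add, map_add, add_smul, hx, hy]
  | single n r => rw [mp_single, mp_single, ag_single, hE.pi_iota, single_eq, og_one]

include hE in
theorem augi_pv {J : Type} [Fintype J] (z : J → ZG N) :
    augi π J (pv ι z) = (show RM π from (∑ j, ag (z j)) • (1 : ZG H)) := by
  rw [augi_apply, Finset.sum_smul]
  exact Finset.sum_congr rfl (fun j _ => hE.mp_pi_iota _)

include hE in
theorem augi_surjective {J : Type} [Fintype J] (h : ∃ x : J → ZG N, ∑ j, ag (x j) = 1) :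
    Function.Surjective (augi π J) := by
  intro b
  obtain ⟨x, hx⟩ := h
  obtain ⟨a, ha⟩ := mp_surjective π hE.surj b
  refine ⟨a • pv ι x, ?_⟩
  rw [map_smul, hE.augi_pv, hx, RM_smul, ha, one_smul]
  exact mul_one (show ZG H from b)

include hE in
theorem exact_zero {J I : Type} [Fintype J] [Fintype I] (M : Matrix I J (ZG N))
    (h : ∀ x : J → ZG N, ∑ j, ag (x j) = 0 ↔ ∃ y, Matrix.vecMul y M = x) (x : J → ZG G) :
    augi π J x = 0 ↔ ∃ y, Matrix.vecMul y (M.map (mp ι)) = x := by
  classical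
  constructor
  · intro hx
    refine hE.exists_vecMul M x (fun g => ?_)
    rw [← h]
    have h1 : (∑ j, mp π (x j) : ZG H).coeff (π g) = 0 := by
      have : (∑ j, mp π (x j) : ZG H) = 0 := hx
      rw [this]
      rfl
    rw [MonoidAlgebra.coeff_sum, Finsupp.finsetSum_apply] at h1
    rw [← h1]
    exact Finset.sum_congr rfl (fun j _ => (hE.coeff_mp g (x j)).symm)
  · rintro ⟨y, rfl⟩
    rw [Matrix.vecMul_eq_sum, map_sum]
    refine Finset.sum_eq_zero (fun i _ => ?_)
    rw [map_smul]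
    have h1 : (M.map (mp ι)) i = pv ι (M i) := rfl
    rw [h1, hE.augi_pv]
    have h2 : ∑ j, ag (M i j) = 0 := by
      rw [h]
      refine ⟨Pi.single i 1, ?_⟩
      rw [Matrix.single_one_vecMul]
      rfl
    rw [h2, zero_smul]
    exact mul_zero (mp π (y i))

end IsExt

section complex

variable {N G H : Type} [Group N] [Group G] [Group H] {n : ℕ} (P : PRes N n)

/-- the differentials of the induced complex -/
noncomputable def PRes.dI (ι : N →* G) (i : ℕ) :
    (Fin (P.k (i + 1)) → ZG G) →ₗ[ZG G] (Fin (P.k i) → ZG G) :=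
  ((P.M i).map (mp ι)).vecMulLinear

theorem PRes.dI_apply (ι : N →* G) (i : ℕ) (x : Fin (P.k (i + 1)) → ZG G) :
    P.dI ι i x = Matrix.vecMul x ((P.M i).map (mp ι)) := rfl

theorem PRes.range_dI (ι : N →* G) (π : G →* H) (hE : IsExt ι π) (m : ℕ) (hm : n = m + 1)
    (i : ℕ) (hi : i ≤ m) : LinearMap.range (P.dI ι i) = ZZ (E := fun i => Fin (P.k i) → ZG G)
      (augi π (Fin (P.k 0))) (P.dI ι) i := by
  cases i with
  | zero =>
    ext x
    exact (hE.exact_zero (P.M 0) P.ex0 x).symm
  | succ i =>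
    ext x
    exact (hE.exact_ind (P.M (i + 1)) (P.M i) (P.exs i (by omega)) x).symm

include P in
theorem PRes.FP_RM (ι : N →* G) (π : G →* H) (hE : IsExt ι π) (m : ℕ) (hm : n = m + 1) :
    FP (ZG G) (m + 1) (RM π) := by
  refine FP.of_res P.k (augi π (Fin (P.k 0))) (P.dI ι) (hE.augi_surjective P.ne) ?_ ?_
  · intro _
    exact P.range_dI ι π hE m hm 0 (Nat.zero_le m)
  · intro j hj
    exact P.range_dI ι π hE m hm (j + 1) (by omega)

/-- right multiplication by `γ` on the induced module -/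
noncomputable def rmul (π : G →* H) (γ : H) : RM π →ₗ[ZG G] RM π where
  toFun x := (show ZG H from (show ZG H from x) * og γ)
  map_add' x y := add_mul (show ZG H from x) (show ZG H from y) (og γ)
  map_smul' a x := mul_assoc (mp π a) (show ZG H from x) (og γ)

/-- a chain self-map (given by matrices) of the induced complex, in degrees `≤ m + 1`, lifting
right multiplication by `γ` -/
structure IsChain (P : PRes N n) (ι : N →* G) (π : G →* H) (m : ℕ) (γ : H)
    (ρ : ∀ i, Matrix (Fin (P.k i)) (Fin (P.k i)) (ZG G)) : Prop where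
  aug : ∀ x, augi π _ (Matrix.vecMul x (ρ 0)) = rmul π γ (augi π _ x)
  com : ∀ i, i ≤ m → (P.M i).map (mp ι) * ρ i = ρ (i + 1) * (P.M i).map (mp ι)

/-- the map `y ↦ ∑ (y_j ρ_j - y_j)` -/
noncomputable def uu {J : Type} [Fintype J] (P : PRes N n)
    (ρ : J → ∀ i, Matrix (Fin (P.k i)) (Fin (P.k i)) (ZG G)) (i : ℕ) :
    (J → Fin (P.k i) → ZG G) →ₗ[ZG G] (Fin (P.k i) → ZG G) :=
  ∑ j, ((ρ j i).vecMulLinear - LinearMap.id).comp (LinearMap.proj j)

theorem uu_apply {J : Type} [Fintype J] (P : PRes N n)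
    (ρ : J → ∀ i, Matrix (Fin (P.k i)) (Fin (P.k i)) (ZG G)) (i : ℕ)
    (y : J → Fin (P.k i) → ZG G) :
    uu P ρ i y = ∑ j, (Matrix.vecMul (y j) (ρ j i) - y j) := by
  unfold uu
  rw [LinearMap.sum_apply]
  rfl

/-- the map `phi` with scalars restricted to `ℤG` -/
noncomputable def phiR {J : Type} [Fintype J] (π : G →* H) (γ : J → H) :
    (J → RM π) →ₗ[ZG G] RM π :=
  ∑ j, (rmul π (γ j) - LinearMap.id).comp (LinearMap.proj j)

theorem phiR_apply {J : Type} [Fintype J] (π : G →* H) (γ : J → H) (y : J → RM π) :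
    phiR π γ y = phi γ (show J → ZG H from y) := by
  unfold phiR
  rw [LinearMap.sum_apply, phi_apply]
  refine Finset.sum_congr rfl (fun j _ => ?_)
  have h : ∀ z : ZG H, z * (og (γ j) - 1) = z * og (γ j) - z := fun z => by
    rw [mul_sub, mul_one]
  exact (h (y j)).symm

theorem ext_iff {J : Type} [Fintype J] {ι : N →* G} {π : G →* H} (hE : IsExt ι π) (m : ℕ) (hm : n = m + 1)
    (γ : J → H) (ρ : J → ∀ i, Matrix (Fin (P.k i)) (Fin (P.k i)) (ZG G))
    (hρ : ∀ j, IsChain P ι π m (γ j) (ρ j)) :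
    FP (ZG G) (m + 1) (TT (augi π (Fin (P.k 0))) (phiR π γ) ⊤) ↔
      ∃ W : Submodule (ZG G) (Fin (P.k (m + 1)) → ZG G), W.FG ∧
      LinearMap.ker (P.dI ι m) = W ⊔ Submodule.map (uu P ρ (m + 1))
        (LinearMap.ker ((P.dI ι m).compLeft J)) := by
  refine chain_iff (F := fun i => Fin (P.k i) → ZG G) (E := fun i => J → Fin (P.k i) → ZG G)
    m (phiR π γ) (augi π (Fin (P.k 0))) (P.dI ι)
    ((augi π (Fin (P.k 0))).compLeft J) (fun i => (P.dI ι i).compLeft J) (uu P ρ) ?_ ?_ ?_ ?_ ?_
  · intro y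
    choose x hx using fun j => hE.augi_surjective P.ne (y j)
    exact ⟨x, funext hx⟩
  · exact fun i hi => P.range_dI ι π hE m hm i hi
  · intro i hi
    have h1 := P.range_dI ι π hE m hm i hi
    rw [LinearMap.range_compLeft, h1]
    cases i with
    | zero => exact (LinearMap.ker_compLeft _ _).symm
    | succ i => exact (LinearMap.ker_compLeft _ _).symm
  · apply LinearMap.ext
    intro y
    rw [LinearMap.comp_apply, LinearMap.comp_apply, uu_apply, map_sum, phiR, LinearMap.sum_apply]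
    refine Finset.sum_congr rfl (fun j _ => ?_)
    rw [map_sub, (hρ j).aug]
    rfl
  · intro i hi
    apply LinearMap.ext
    intro y
    rw [LinearMap.comp_apply, LinearMap.comp_apply, uu_apply, map_sum, uu_apply]
    refine Finset.sum_congr rfl (fun j _ => ?_)
    rw [map_sub]
    congr 1
    change Matrix.vecMul (Matrix.vecMul (y j) (ρ j (i + 1))) ((P.M i).map (mp ι)) =
      Matrix.vecMul (Matrix.vecMul (y j) ((P.M i).map (mp ι))) (ρ j i)
    rw [Matrix.vecMul_vecMul, Matrix.vecMul_vecMul, (hρ j).com i hi]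

end complex

end Pool.Agent.Helper57K9
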