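import Pool.Agent.Helper57K9.Link

/-!
# From the first factor to the fibre product
-/

set_option autoImplicit false

namespace Pool.Agent.Helper57K9

section two

variable {N P G H Q : Type} [Group N] [Group P] [Group G] [Group H] [Group Q] {n : ℕ}
  {B : PRes N n} {J : Type} [Fintype J] {ι : N →* P} {β : P →* H} (hE : IsExt ι β) {m : ℕ}
  {γ : J → H} {ρ : J → ∀ i, Matrix (Fin (B.k i)) (Fin (B.k i)) (ZG P)}
  {α : P →* G} (hα : Function.Surjective α) {π₁ : G →* Q} (hG : IsExt (α.comp ι) π₁)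

/-- auxiliary finite sums -/
noncomputable def rS (hG : IsExt (α.comp ι) π₁) (sP : Q → P) {I : Type} (S : Finset Q) :
    (I → ZG P) →+ (I → ZG P) :=
  ∑ q ∈ S, (((smulAddHom (ZG P) (I → ZG P)) (og (sP q))).comp (pv ι)).comp
    ((hG.cm (α (sP q))).comp (pv α))

theorem rS_apply (sP : Q → P) {I : Type} (S : Finset Q) (x : I → ZG P) :
    rS hG sP S x = ∑ q ∈ S, og (sP q) • pv ι (hG.cm (α (sP q)) (pv α x)) := by
  unfold rS
  rw [AddMonoidHom.finsetSum_apply]
  rfl

include hE hα hG in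
theorem mem_of_pv_eq_zero (K : Submodule (ZG P) (Fin (B.k (m + 1)) → ZG P))
    (hK : ∀ t, α t = 1 → ∀ x ∈ LL B ι m, og t • x - x ∈ K)
    (x : Fin (B.k (m + 1)) → ZG P) (hx : x ∈ LL B ι m) (hx0 : pv α x = 0) : x ∈ K := by
  classical
  obtain ⟨sP, hsP⟩ := (hG.surj.comp hα).hasRightInverse
  have hsP' : ∀ q, π₁ (α (sP q)) = q := hsP
  have key : ∃ S₀ : Finset Q, ∀ S : Finset Q, S₀ ⊆ S → x - rS hG sP S x ∈ K := by
    let A : AddSubgroup (Fin (B.k (m + 1)) → ZG P) :=
      { carrier := {x | ∃ S₀ : Finset Q, ∀ S : Finset Q, S₀ ⊆ S → x - rS hG sP S x ∈ K}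
        add_mem' := by
          rintro a b ⟨S1, h1⟩ ⟨S2, h2⟩
          refine ⟨S1 ∪ S2, fun S hS => ?_⟩
          have e1 := h1 S (Finset.union_subset_left hS)
          have e2 := h2 S (Finset.union_subset_right hS)
          have e3 := K.add_mem e1 e2
          convert e3 using 1
          rw [map_add]
          abel
        zero_mem' := ⟨∅, fun S _ => by
          rw [map_zero, sub_zero]
          exact K.zero_mem⟩
        neg_mem' := by
          rintro a ⟨S1, h1⟩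
          refine ⟨S1, fun S hS => ?_⟩
          have e3 := K.neg_mem (h1 S hS)
          convert e3 using 1
          rw [map_neg]
          abel }
    refine LL_induction hE (K := A) ?_ x hx
    intro p l hl
    refine ⟨{π₁ (α p)}, fun S hS => ?_⟩
    have hmem : π₁ (α p) ∈ S := hS (Finset.mem_singleton_self _)
    have hpv : pv α (og p • pv ι l) = og (α p) • pv (α.comp ι) l := by
      rw [pv_smul, mp_og, pv_comp]
    have hsum : rS hG sP S (og p • pv ι l) =
        og (sP (π₁ (α p))) • pv ι (hG.cm (α (sP (π₁ (α p)))) (pv α (og p • pv ι l))) := by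
      rw [rS_apply, Finset.sum_eq_single_of_mem _ hmem]
      intro q _ hq
      rw [hpv, hG.cm_og_ne, map_zero, smul_zero]
      rw [hsP']
      exact hq
    obtain ⟨x0, hx0⟩ := hG.exists_mul (hsP' (π₁ (α p)))
    have hcm : hG.cm (α (sP (π₁ (α p)))) (pv α (og p • pv ι l)) = og x0 • l := by
      have h2 := hG.cm_og (α (sP (π₁ (α p)))) x0 l
      rw [hpv]
      rw [← hx0] at h2
      exact h2
    rw [hsum, hcm, pv_smul, mp_og, smul_smul, ← og_mul]
    have ht : α (p * (sP (π₁ (α p)) * ι x0)⁻¹) = 1 := by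
      rw [map_mul, map_inv, map_mul]
      have : α (sP (π₁ (α p))) * α (ι x0) = α p := hx0.symm
      rw [this, mul_inv_cancel]
    have h3 := hK _ ht (og (sP (π₁ (α p)) * ι x0) • pv ι l) (Submodule.smul_mem _ _ hl)
    rwa [smul_smul, ← og_mul, inv_mul_cancel_right] at h3
  obtain ⟨S0, hS0⟩ := key
  have h1 := hS0 S0 (Finset.Subset.refl _)
  rw [rS_apply, hx0] at h1
  have h2 : ∑ q ∈ S0, og (sP q) • pv ι (hG.cm (α (sP q)) (0 : Fin (B.k (m + 1)) → ZG G)) =
      (0 : Fin (B.k (m + 1)) → ZG P) := by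
    refine Finset.sum_eq_zero (fun q _ => ?_)
    rw [map_zero, map_zero, smul_zero]
  rwa [h2, sub_zero] at h1

theorem IsExt.pv_injective {N G H : Type} [Group N] [Group G] [Group H] {ι : N →* G}
    {π : G →* H} (hE : IsExt ι π) {I : Type} (y : I → ZG N) (h : pv ι y = 0) : y = 0 := by
  have h1 := hE.cm_og_self 1 y
  rw [h, smul_zero, map_zero] at h1
  exact h1.symm

include hα hG in
theorem exists_lift_LL (y : Fin (B.k (m + 1)) → ZG G) (hy : y ∈ LL B (α.comp ι) m) :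
    ∃ x ∈ LL B ι m, pv α x = y := by
  have h1 : y ∈ AddSubgroup.map (pv α) (LL B ι m).toAddSubgroup := by
    refine LL_induction hG ?_ y hy
    intro q l hl
    obtain ⟨p, rfl⟩ := hα q
    refine ⟨og p • pv ι l, ?_, ?_⟩
    · refine Submodule.smul_mem _ _ ?_
      rw [mem_LL, ← pv_vecMul] at hl ⊢
      rw [hG.pv_injective _ hl, map_zero]
    · rw [pv_smul, mp_og, pv_comp]
  obtain ⟨x, hx, hxy⟩ := h1
  exact ⟨x, hx, hxy⟩

theorem map_map_mp {I K : Type} (M : Matrix I K (ZG N)) :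
    (M.map (mp ι)).map (mp α) = M.map (mp (α.comp ι)) := by
  refine Matrix.ext (fun a b => ?_)
  rw [Matrix.map_apply, Matrix.map_apply, Matrix.map_apply, mp_comp]

include hα in
theorem isChain_map {π₂ : H →* Q} (hc : ∀ p, π₁ (α p) = π₂ (β p)) {g : H}
    {R : ∀ i, Matrix (Fin (B.k i)) (Fin (B.k i)) (ZG P)} (hR : IsChain B ι β m g R) :
    IsChain B (α.comp ι) π₁ m (π₂ g) (fun i => (R i).map (mp α)) := by
  have hc' : π₁.comp α = π₂.comp β := MonoidHom.ext hc
  have haug : ∀ x : Fin (B.k 0) → ZG P, (∑ b, mp π₁ (pv α x b) : ZG Q) =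
      mp π₂ (∑ b, mp β (x b)) := by
    intro x
    rw [map_sum]
    refine Finset.sum_congr rfl (fun b _ => ?_)
    rw [pv_apply, mp_comp, mp_comp, hc']
  refine ⟨?_, ?_⟩
  · intro x
    obtain ⟨x', rfl⟩ : ∃ x', pv α x' = x := by
      choose x' hx' using fun j => mp_surjective α hα (x j)
      exact ⟨x', funext hx'⟩
    rw [← pv_vecMul]
    change (∑ b, mp π₁ (pv α (Matrix.vecMul x' (R 0)) b) : ZG Q) =
      (∑ b, mp π₁ (pv α x' b)) * og (π₂ g)
    rw [haug, haug]
    have h1 : (∑ b, mp β (Matrix.vecMul x' (R 0) b) : ZG H) = (∑ b, mp β (x' b)) * og g :=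
      hR.aug x'
    rw [h1, map_mul, mp_og]
  · intro i hi
    rw [← map_map_mp, ← Matrix.map_mul, hR.com i hi, Matrix.map_mul]

theorem pv_uu (i : ℕ) (y : J → Fin (B.k i) → ZG P) :
    pv α (uu B ρ i y) = uu B (fun j i => (ρ j i).map (mp α)) i (fun j => pv α (y j)) := by
  rw [uu_apply, uu_apply, map_sum]
  refine Finset.sum_congr rfl (fun j _ => ?_)
  rw [map_sub, pv_vecMul]

include hE hα hG in
theorem link (hρ : ∀ j, IsChain B ι β m (γ j) (ρ j))
    (hK : ∃ W : Submodule (ZG P) (Fin (B.k (m + 1)) → ZG P), W.FG ∧ W ≤ LL B ι m ∧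
      ∀ t, α t = 1 → ∀ x ∈ LL B ι m, og t • x - x ∈ SG B ι m ρ ⊔ W)
    (hA : ∃ W : Submodule (ZG G) (Fin (B.k (m + 1)) → ZG G), W.FG ∧
      LL B (α.comp ι) m = W ⊔ SG B (α.comp ι) m (fun j i => (ρ j i).map (mp α))) :
    ∃ W : Submodule (ZG P) (Fin (B.k (m + 1)) → ZG P), W.FG ∧
      LL B ι m = W ⊔ SG B ι m ρ := by
  obtain ⟨W, hW1, hW2, hW3⟩ := hK
  obtain ⟨V, ⟨S, hS⟩, hV2⟩ := hA
  have hVL : V ≤ LL B (α.comp ι) m := by
    rw [hV2]
    exact le_sup_left
  have hlift : ∀ v : S, ∃ x ∈ LL B ι m, pv α x = v.1 := by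
    intro v
    refine exists_lift_LL hα hG v.1 (hVL ?_)
    rw [← hS]
    exact Submodule.subset_span v.2
  choose w hw1 hw2 using hlift
  let W' : Submodule (ZG P) (Fin (B.k (m + 1)) → ZG P) := Submodule.span (ZG P) (Set.range w)
  have hW'L : W' ≤ LL B ι m := by
    rw [Submodule.span_le]
    rintro _ ⟨v, rfl⟩
    exact hw1 v
  have hV' : ∀ v ∈ V, ∃ x ∈ W', pv α x = v := by
    intro v hv
    rw [← hS] at hv
    induction hv using Submodule.span_induction with
    | mem x hx => exact ⟨w ⟨x, hx⟩, Submodule.subset_span ⟨⟨x, hx⟩, rfl⟩, hw2 _⟩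
    | zero => exact ⟨0, Submodule.zero_mem _, map_zero _⟩
    | add x y _ _ hx hy =>
      obtain ⟨a, ha, rfl⟩ := hx
      obtain ⟨b, hb, rfl⟩ := hy
      exact ⟨a + b, Submodule.add_mem _ ha hb, map_add _ _ _⟩
    | smul c x _ hx =>
      obtain ⟨a, ha, rfl⟩ := hx
      obtain ⟨c', rfl⟩ := mp_surjective α hα c
      exact ⟨c' • a, Submodule.smul_mem _ _ ha, pv_smul _ _ _⟩
  refine ⟨W' ⊔ W, Submodule.FG.sup (Submodule.fg_span (Set.finite_range w)) hW1, ?_⟩
  apply le_antisymm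
  · intro x hx
    have hx2 : pv α x ∈ LL B (α.comp ι) m := by
      rw [mem_LL] at hx ⊢
      rw [← map_map_mp, ← pv_vecMul, hx, map_zero]
    rw [hV2, Submodule.mem_sup] at hx2
    obtain ⟨v, hv, _, ⟨y, hy, rfl⟩, hvy⟩ := hx2
    obtain ⟨v', hv', rfl⟩ := hV' v hv
    have hyj : ∀ j, ∃ x ∈ LL B ι m, pv α x = y j := by
      intro j
      refine exists_lift_LL hα hG (y j) ?_
      exact congrFun (LinearMap.mem_ker.1 hy) j
    choose y' hy'1 hy'2 using hyj
    have hy' : y' ∈ LinearMap.ker ((B.dI ι m).compLeft J) := by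
      rw [LinearMap.mem_ker]
      exact funext fun j => hy'1 j
    have hu : uu B ρ (m + 1) y' ∈ SG B ι m ρ := ⟨y', hy', rfl⟩
    have hpu : pv α (uu B ρ (m + 1) y') =
        uu B (fun j i => (ρ j i).map (mp α)) (m + 1) y := by
      rw [pv_uu]
      congr 1
      exact funext hy'2
    have h1 : x - v' - uu B ρ (m + 1) y' ∈ LL B ι m :=
      Submodule.sub_mem _ (Submodule.sub_mem _ hx (hW'L hv')) (SG_le hρ hu)
    have h2 : pv α (x - v' - uu B ρ (m + 1) y') = 0 := by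
      rw [map_sub, map_sub, hpu, ← hvy]
      abel
    have h3 := mem_of_pv_eq_zero hE hα hG _ hW3 _ h1 h2
    have h4 : x = (x - v' - uu B ρ (m + 1) y') + v' + uu B ρ (m + 1) y' := by abel
    rw [h4]
    have hle1 : SG B ι m ρ ⊔ W ≤ W' ⊔ W ⊔ SG B ι m ρ :=
      sup_le le_sup_right (le_sup_right.trans le_sup_left)
    exact Submodule.add_mem _ (Submodule.add_mem _ (hle1 h3)
      ((le_sup_left.trans le_sup_left : W' ≤ W' ⊔ W ⊔ SG B ι m ρ) hv'))
      ((le_sup_right : SG B ι m ρ ≤ W' ⊔ W ⊔ SG B ι m ρ) hu)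
  · exact sup_le (sup_le hW'L hW2) (SG_le hρ)

end two

end Pool.Agent.Helper57K9
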